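import Pool.Agent.U693.UN.Che0

/-!
# Many primes without a zero of the cubic
-/

set_option autoImplicit false
set_option linter.all false

open Polynomial NumberField Pool.Agent.W401.Cheb Filter Topology
open scoped Classical

namespace Pool.Agent.U693.UN

/-- the cubic -/
noncomputable def cub (A B : ℤ) : ℚ[X] := X ^ 3 + C (A : ℚ) * X + C (B : ℚ)

theorem cub_deg (A B : ℤ) : (cub A B).natDegree = 3 := by
  unfold cub
  compute_degree!

theorem cub_monic (A B : ℤ) : (cub A B).Monic := by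
  unfold cub
  monicity!

theorem cub_irr {A B : ℤ} (h2 : ∀ z : ℤ, ¬ (2 : ℤ) ∣ z ^ 3 + A * z + B) : Irreducible (cub A B) := by
  have hne : cub A B ≠ 0 := (cub_monic A B).ne_zero
  rw [irreducible_iff_roots_eq_zero_of_degree_le_three (by rw [cub_deg]; norm_num)
    (by rw [cub_deg])]
  rw [Multiset.eq_zero_iff_forall_notMem]
  intro x hx
  rw [mem_roots hne, IsRoot.def] at hx
  have hx' : x ^ 3 + A * x + B = 0 := by
    simpa [cub] using hx
  have hint : IsIntegral ℤ x := by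
    refine ⟨X ^ 3 + C A * X + C B, by monicity!, ?_⟩
    simp only [eval₂_add, eval₂_mul, eval₂_pow, eval₂_X, eval₂_C]
    rw [eq_intCast, eq_intCast]
    exact hx'
  obtain ⟨z, rfl⟩ := IsIntegrallyClosed.isIntegral_iff.1 hint
  rw [eq_intCast] at hx'
  have h3 : z ^ 3 + A * z + B = 0 := by exact_mod_cast hx'
  exact h2 z (by rw [h3]; exact dvd_zero _)

section spl

variable (A B : ℤ) (S : Finset ℤ)

/-- the product -/
noncomputable def bigP : ℚ[X] := cub A B * (X ^ 2 - C ((-1 : ℤ) : ℚ)) * ∏ Q ∈ S, (X ^ 2 - C (Q : ℚ))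

theorem bigP_ne : bigP A B S ≠ 0 := by
  unfold bigP
  refine mul_ne_zero (mul_ne_zero (cub_monic A B).ne_zero (monic_X_pow_sub_C _ two_ne_zero).ne_zero) ?_
  rw [Finset.prod_ne_zero_iff]
  intro Q _
  exact (monic_X_pow_sub_C _ two_ne_zero).ne_zero

theorem field_aux (q : ℚ[X]) (K : Type) [Field K] [CharZero K] (inst : Algebra ℚ K)
    [IsSplittingField ℚ K q] : ∃ (L : Type) (_ : Field L) (_ : NumberField L) (_ : IsGalois ℚ L),
    (q.map (algebraMap ℚ L)).Splits := by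
  obtain rfl : inst = DivisionRing.toRatAlgebra := Subsingleton.elim _ _
  haveI : FiniteDimensional ℚ K := IsSplittingField.finiteDimensional K q
  haveI : NumberField K := ⟨⟩
  haveI : Normal ℚ K := Normal.of_isSplittingField q
  exact ⟨K, inferInstance, inferInstance, ⟨⟩, IsSplittingField.splits K q⟩

/-- a splitting field -/
theorem exists_field : ∃ (L : Type) (_ : Field L) (_ : NumberField L) (_ : IsGalois ℚ L),
    ((bigP A B S).map (algebraMap ℚ L)).Splits := by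
  exact @field_aux (bigP A B S) (bigP A B S).SplittingField _ _ _
    (IsSplittingField.splittingField (bigP A B S))

variable (L : Type) [Field L] [NumberField L] [IsGalois ℚ L]
  (hL : ((bigP A B S).map (algebraMap ℚ L)).Splits)

include hL

theorem spl_dvd {q : ℚ[X]} (h : q ∣ bigP A B S) : (q.map (algebraMap ℚ L)).Splits := by
  refine Splits.of_dvd hL ?_ (Polynomial.map_dvd _ h)
  exact (Polynomial.map_ne_zero_iff (algebraMap ℚ L).injective).2 (bigP_ne A B S)

theorem cub_spl : ((cub A B).map (algebraMap ℚ L)).Splits := by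
  apply spl_dvd A B S L hL
  unfold bigP
  rw [mul_assoc]
  exact Dvd.intro _ rfl

theorem exists_sqrt {a : ℤ} (h : (X ^ 2 - C (a : ℚ) : ℚ[X]) ∣ bigP A B S) :
    ∃ x : L, x ^ 2 = (a : L) := by
  have h1 := spl_dvd A B S L hL h
  obtain ⟨x, hx⟩ := Splits.exists_eval_eq_zero h1 (by
    rw [Polynomial.degree_map, degree_X_pow_sub_C (by norm_num)]
    norm_num)
  refine ⟨x, ?_⟩
  have h2 : x ^ 2 - (a : L) = 0 := by simpa using hx
  exact sub_eq_zero.1 h2

theorem exists_i : ∃ x : 𝓞 L, x ^ 2 = ((-1 : ℤ) : 𝓞 L) := by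
  obtain ⟨x, hx⟩ := exists_sqrt A B S L hL (a := -1) (by
    unfold bigP
    rw [mul_assoc, mul_comm, mul_assoc]
    exact Dvd.intro _ rfl)
  have hi : IsIntegral ℤ x := by
    refine ⟨X ^ 2 - C (-1), by monicity!, ?_⟩
    simp only [eval₂_sub, eval₂_pow, eval₂_X, eval₂_C]
    rw [hx, eq_intCast, sub_self]
  refine ⟨⟨x, hi⟩, ?_⟩
  apply FaithfulSMul.algebraMap_injective (𝓞 L) L
  rw [map_pow, map_intCast]
  exact hx

theorem exists_r {Q : ℤ} (hQ : Q ∈ S) : ∃ x : 𝓞 L, x ^ 2 = (Q : 𝓞 L) := by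
  obtain ⟨x, hx⟩ := exists_sqrt A B S L hL (a := Q) (by
    unfold bigP
    exact Dvd.dvd.mul_left (Finset.dvd_prod_of_mem _ hQ) _)
  have hi : IsIntegral ℤ x := by
    refine ⟨X ^ 2 - C Q, by monicity!, ?_⟩
    simp only [eval₂_sub, eval₂_pow, eval₂_X, eval₂_C]
    rw [hx, eq_intCast, sub_self]
  refine ⟨⟨x, hi⟩, ?_⟩
  apply FaithfulSMul.algebraMap_injective (𝓞 L) L
  rw [map_pow, map_intCast]
  exact hx

/-- the three roots -/
theorem three_roots : ∃ a b c : 𝓞 L, ∀ z : 𝓞 L,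
    z ^ 3 + A * z + B = (z - a) * (z - b) * (z - c) := by
  have h1 := cub_spl A B S L hL
  have h2 := h1.natDegree_eq_card_roots
  rw [natDegree_map, cub_deg] at h2
  obtain ⟨a, b, c, habc⟩ := Multiset.card_eq_three.1 h2.symm
  have h3 := h1.eq_prod_roots
  rw [habc, ((cub_monic A B).map _).leadingCoeff] at h3
  have h4 : ∀ z : L, z ^ 3 + A * z + B = (z - a) * (z - b) * (z - c) := by
    intro z
    have h5 := congrArg (Polynomial.eval z) h3
    simpa [cub, mul_assoc] using h5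
  have hint : ∀ x : L, x ^ 3 + A * x + B = 0 → IsIntegral ℤ x := by
    intro x hx
    refine ⟨X ^ 3 + C A * X + C B, by monicity!, ?_⟩
    simp only [eval₂_add, eval₂_mul, eval₂_pow, eval₂_X, eval₂_C]
    rw [eq_intCast, eq_intCast]
    exact hx
  refine ⟨⟨a, hint a (by rw [h4]; ring)⟩, ⟨b, hint b (by rw [h4]; ring)⟩,
    ⟨c, hint c (by rw [h4]; ring)⟩, fun z => ?_⟩
  apply FaithfulSMul.algebraMap_injective (𝓞 L) L
  simp only [map_add, map_mul, map_pow, map_sub, map_intCast]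
  exact h4 _

/-- The Galois group contains an element without fixed root. -/
theorem exists_gal (h2 : ∀ z : ℤ, ¬ (2 : ℤ) ∣ z ^ 3 + A * z + B) :
    ∃ g : Gal(L/ℚ), (∀ (x : 𝓞 L) (a : ℤ), x ^ 2 = (a : 𝓞 L) → g • x = x) ∧
      ∀ x : 𝓞 L, x ^ 3 + A * x + B = 0 → g • x ≠ x := by
  have hirr := cub_irr h2
  have hcard : Nat.card ((cub A B).rootSet L) = 3 := by
    rw [Nat.card_eq_fintype_card, card_rootSet_eq_natDegree hirr.separable (cub_spl A B S L hL), cub_deg]
  have htr : ∀ x y : (cub A B).rootSet L, ∃ g : Gal(L/ℚ), g • x = y := by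
    intro x y
    have hx : cub A B = minpoly ℚ (x : L) :=
      minpoly.eq_of_irreducible_of_monic hirr (aeval_eq_zero_of_mem_rootSet x.2) (cub_monic A B)
    have hy : cub A B = minpoly ℚ (y : L) :=
      minpoly.eq_of_irreducible_of_monic hirr (aeval_eq_zero_of_mem_rootSet y.2) (cub_monic A B)
    have h3 := (Normal.minpoly_eq_iff_mem_orbit L).1 (hy.symm.trans hx)
    obtain ⟨g, hg⟩ := h3
    exact ⟨g, Subtype.ext hg⟩
  obtain ⟨g, hg⟩ := exists_fpf htr (by rw [hcard]; norm_num)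
  refine ⟨g ^ 4, fun x a hx => ?_, fun x hx h => ?_⟩
  · have h3 : g • x = x ∨ g • x = - x := by
      apply sq_eq_sq_iff_eq_or_eq_neg.1
      rw [← smul_pow', hx]
      exact map_intCast (MulSemiringAction.toRingHom Gal(L/ℚ) (𝓞 L) g) a
    have h4 : g • g • x = x := by
      rcases h3 with h | h
      · rw [h, h]
      · rw [h, smul_neg, h, neg_neg]
    have h5 : g ^ 4 • x = g • g • g • g • x := by
      simp only [pow_succ, pow_zero, one_mul, mul_smul]
    rw [h5, h4, h4]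
  · have hmem : algebraMap (𝓞 L) L x ∈ (cub A B).rootSet L := by
      rw [mem_rootSet]
      refine ⟨(cub_monic A B).ne_zero, ?_⟩
      have h3 := congrArg (algebraMap (𝓞 L) L) hx
      simp only [map_add, map_mul, map_pow, map_intCast, map_zero] at h3
      simpa [cub] using h3
    apply four_fpf hcard g hg ⟨_, hmem⟩
    apply Subtype.ext
    have h3 := congrArg (algebraMap (𝓞 L) L) h
    exact h3

end spl

/-- the good primes -/
def Tp (A B : ℤ) (S : Finset ℤ) (p : ℕ) : Prop :=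
  (p : ℤ) ∉ S ∧ p % 4 = 1 ∧ (∀ Q ∈ S, ∃ c : ℤ, (p : ℤ) ∣ c ^ 2 - Q) ∧ ∀ z : ℤ, ¬ (p : ℤ) ∣ z ^ 3 + A * z + B

theorem four_one {p : ℕ} [Fact p.Prime] (hp : p ≠ 2) : p % 4 = 1 ↔ ∃ c : ℤ, (p : ℤ) ∣ c ^ 2 - (-1) := by
  have h1 : IsSquare (-1 : ZMod p) ↔ ∃ c : ℤ, (p : ℤ) ∣ c ^ 2 - (-1) := by
    constructor
    · rintro ⟨y, hy⟩
      obtain ⟨c, rfl⟩ := ZMod.intCast_surjective y
      refine ⟨c, ?_⟩
      rw [← ZMod.intCast_zmod_eq_zero_iff_dvd]
      push_cast
      rw [pow_two, ← hy]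
      ring
    · rintro ⟨c, hc⟩
      rw [← ZMod.intCast_zmod_eq_zero_iff_dvd] at hc
      push_cast at hc
      exact ⟨c, by linear_combination - hc⟩
  rw [← h1, ZMod.exists_sq_eq_neg_one_iff]
  have h2 := (Fact.out : p.Prime).eq_two_or_odd
  omega

/-- **Density of the good primes.** -/
theorem dens {A B : ℤ} (S : Finset ℤ) (hS : ∀ Q ∈ S, Q ≠ 0)
    (h2 : ∀ z : ℤ, ¬ (2 : ℤ) ∣ z ^ 3 + A * z + B) :
    ∃ δ : ℝ, 0 < δ ∧ ∀ᶠ N : ℕ in atTop, δ * (Nat.primeCounting N : ℝ) ≤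
      (((Finset.range (N + 1)).filter fun p => p.Prime ∧ Tp A B S p).card : ℝ) := by
  obtain ⟨L, _, _, _, hL⟩ := exists_field A B S
  obtain ⟨i, hi⟩ := exists_i A B S L hL
  have hr : ∀ Q : S, ∃ x : 𝓞 L, x ^ 2 = ((Q : ℤ) : 𝓞 L) := fun Q =>
    exists_r A B S L hL Q.2
  choose r hr using hr
  set Cs : Set Gal(L/ℚ) := {g | g • i = i ∧ (∀ Q : S, g • r Q = r Q) ∧
    ∀ x : 𝓞 L, x ^ 3 + A * x + B = 0 → g • x ≠ x} with hCs
  have hne : Cs.Nonempty := by
    obtain ⟨g, hg1, hg2⟩ := exists_gal A B S L hL h2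
    exact ⟨g, hg1 i _ hi, fun Q => hg1 _ _ (hr Q), hg2⟩
  set D : ℤ := 2 * (∏ Q ∈ S, Q) * (4 * A ^ 3 + 27 * B ^ 2) with hD
  have hD0 : D ≠ 0 := by
    refine mul_ne_zero (mul_ne_zero two_ne_zero (Finset.prod_ne_zero_iff.2 hS)) ?_
    have e0 := h2 0
    have e1 := h2 1
    simp only [ne_eq, OfNat.ofNat_ne_zero, not_false_eq_true, zero_pow, mul_zero, zero_add] at e0
    simp only [one_pow, mul_one] at e1
    have hB : B % 2 = 1 := by omega
    obtain ⟨b, hb⟩ : ∃ b, B = 2 * b + 1 := ⟨B / 2, by omega⟩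
    intro h
    rw [hb] at h
    have : (4 * A ^ 3 + 27 * (2 * b + 1) ^ 2) % 2 = 1 := by
      have e : 4 * A ^ 3 + 27 * (2 * b + 1) ^ 2 = 2 * (2 * A ^ 3 + 54 * b ^ 2 + 54 * b + 13) + 1 := by
        ring
      rw [e]
      omega
    rw [h] at this
    norm_num at this
  have key : ∀ (p : ℕ) [Fact p.Prime], ¬ p ∣ D.natAbs →
      ∀ (φ : 𝓞 L →+* AlgebraicClosure (ZMod p)) (g : Gal(L/ℚ)), HasFrob p φ g →
        (Tp A B S p ↔ g ∈ Cs) := by
    intro p hp hpD φ g hg
    have hpD' : ¬ (p : ℤ) ∣ D := fun h => hpD (Int.natCast_dvd.1 h)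
    have hp2 : ¬ (p : ℤ) ∣ 2 := fun h => hpD' ((h.mul_right _).mul_right _)
    have hpne : p ≠ 2 := by
      rintro rfl
      exact hp2 (dvd_refl _)
    have hpQ : ∀ Q ∈ S, ¬ (p : ℤ) ∣ 2 * Q := fun Q hQ h => hpD' (by
      rw [hD]
      exact (h.trans (mul_dvd_mul_left 2 (Finset.dvd_prod_of_mem _ hQ))).mul_right _)
    have hpdisc : ¬ (p : ℤ) ∣ 4 * A ^ 3 + 27 * B ^ 2 := fun h => hpD' (h.mul_left _)
    have hp21 : ¬ (p : ℤ) ∣ 2 * (-1) := by
      intro h
      apply hp2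
      simpa using h
    haveI : CharP (AlgebraicClosure (ZMod p)) p := charP_of_injective_algebraMap
      (algebraMap (ZMod p) (AlgebraicClosure (ZMod p))).injective p
    have e1 := frob_sq hg hi hp21
    have e2 : ∀ Q : S, g • r Q = r Q ↔ ∃ c : ℤ, (p : ℤ) ∣ c ^ 2 - Q := fun Q =>
      frob_sq hg (hr Q) (hpQ Q Q.2)
    have hpS : (p : ℤ) ∉ S := by
      intro h
      apply hpD'
      rw [hD]
      exact ((Finset.dvd_prod_of_mem (fun Q => Q) h).mul_left 2).mul_right _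
    constructor
    · rintro ⟨-, h4, h5, h6⟩
      refine ⟨e1.2 ((four_one hpne).1 h4), fun Q => (e2 Q).2 (h5 Q Q.2), fun x hx h7 => ?_⟩
      obtain ⟨z, hz⟩ := (frob_root hg hx hpdisc).1 h7
      apply h6 z
      rw [← int_zero (k := AlgebraicClosure (ZMod p)) (p := p)]
      have h8 := congrArg φ hx
      simp only [map_add, map_mul, map_pow, map_intCast, map_zero] at h8
      push_cast
      rw [← hz]
      exact h8
    · rintro ⟨h4, h5, h6⟩
      refine ⟨hpS, (four_one hpne).2 (e1.1 h4), fun Q hQ => (e2 ⟨Q, hQ⟩).1 (h5 ⟨Q, hQ⟩), fun z hz => ?_⟩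
      obtain ⟨a, b, c, habc⟩ := three_roots A B S L hL
      have h7 := congrArg φ (habc (z : 𝓞 L))
      have h8 : φ ((z : 𝓞 L) ^ 3 + A * (z : 𝓞 L) + B) = 0 := by
        rw [← int_zero (k := AlgebraicClosure (ZMod p)) (p := p)] at hz
        push_cast at hz
        simp only [map_add, map_mul, map_pow, map_intCast]
        exact hz
      rw [h8, map_mul, map_mul, map_sub, map_sub, map_sub, map_intCast, eq_comm, mul_eq_zero,
        mul_eq_zero] at h7
      have ha : a ^ 3 + A * a + B = 0 := by rw [habc]; ring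
      have hb : b ^ 3 + A * b + B = 0 := by rw [habc]; ring
      have hc : c ^ 3 + A * c + B = 0 := by rw [habc]; ring
      rcases h7 with (h7 | h7) | h7
      · exact h6 a ha ((frob_root hg ha hpdisc).2 ⟨z, (sub_eq_zero.1 h7).symm⟩)
      · exact h6 b hb ((frob_root hg hb hpdisc).2 ⟨z, (sub_eq_zero.1 h7).symm⟩)
      · exact h6 c hc ((frob_root hg hc hpdisc).2 ⟨z, (sub_eq_zero.1 h7).symm⟩)
  have h3 := Q283.TW.dens_of L Cs (Tp A B S) D.natAbs (Int.natAbs_pos.2 hD0) key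
  set κ : ℝ := (Nat.card Cs : ℝ) / (Nat.card Gal(L/ℚ) : ℝ) with hκ
  have hκ0 : 0 < κ := by
    haveI : Nonempty Cs := hne.to_subtype
    have e1 : 0 < Nat.card Cs := Nat.card_pos
    have e2 : 0 < Nat.card Gal(L/ℚ) := Nat.card_pos
    rw [hκ]
    positivity
  refine ⟨κ / 2, by positivity, ?_⟩
  filter_upwards [h3.eventually (lt_mem_nhds (show κ / 2 < κ by linarith))] with N hN
  have h4 : ∑ p ∈ pr N, (if Tp A B S p then (1 : ℝ) else 0) =
      (((Finset.range (N + 1)).filter fun p => p.Prime ∧ Tp A B S p).card : ℝ) := by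
    rw [Finset.sum_ite, Finset.sum_const_zero, add_zero, Finset.sum_const, nsmul_eq_mul, mul_one,
      pr, Finset.filter_filter]
  unfold M at hN
  rw [h4] at hN
  by_cases h0 : (Nat.primeCounting N : ℝ) = 0
  · rw [h0, mul_zero]
    positivity
  · have h5 : 0 < (Nat.primeCounting N : ℝ) := lt_of_le_of_ne (Nat.cast_nonneg _) (Ne.symm h0)
    rw [lt_div_iff₀ h5] at hN
    exact hN.le

end Pool.Agent.U693.UN
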