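import Pool.Agent.U693.UN.Final

/-!
# The union of the fields in the class
-/

set_option autoImplicit false
set_option linter.all false

open Polynomial IsDedekindDomain NumberField
open scoped Classical IntermediateField

namespace Pool.Agent.U693.UN

open Pool.Agent.N922.PQ hiding Cnd cnd_sq cnd_mul cnd_sig base_sq odd_top ns_top cnd_top

theorem nf_of (N : Type) [Field N] [CharZero N] (inst : Module ℚ N)
    (h : @Module.Finite ℚ N _ _ inst) : NumberField N := by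
  have e : inst = (DivisionRing.toRatAlgebra (R := N)).toModule := Subsingleton.elim _ _
  rw [e] at h
  exact ⟨⟩

/-- The compositum of two number fields in a field. -/
theorem exists_comp {M₁ M₂ Ω : Type} [Field M₁] [NumberField M₁] [Field M₂] [NumberField M₂]
    [Field Ω] [CharZero Ω] (φ₁ : M₁ →+* Ω) (φ₂ : M₂ →+* Ω) :
    ∃ (N : Type) (_ : Field N) (_ : NumberField N) (_ : Algebra M₁ N) (_ : Algebra M₂ N)
      (ψ : N →+* Ω), Gnd M₁ M₂ N ∧ (∀ x, ψ (algebraMap M₁ N x) = φ₁ x) ∧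
      ∀ x, ψ (algebraMap M₂ N x) = φ₂ x := by
  set F₁ : IntermediateField ℚ Ω := φ₁.toRatAlgHom.fieldRange with hF₁
  set F₂ : IntermediateField ℚ Ω := φ₂.toRatAlgHom.fieldRange with hF₂
  haveI f1 : FiniteDimensional ℚ F₁ := by
    have e := AlgEquiv.ofInjectiveField φ₁.toRatAlgHom
    exact LinearEquiv.finiteDimensional e.toLinearEquiv
  haveI f2 : FiniteDimensional ℚ F₂ := by
    have e := AlgEquiv.ofInjectiveField φ₂.toRatAlgHom
    exact LinearEquiv.finiteDimensional e.toLinearEquiv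
  haveI f3 : FiniteDimensional ℚ ↥(F₁ ⊔ F₂) := IntermediateField.finiteDimensional_sup F₁ F₂
  haveI f4 : CharZero ↥(F₁ ⊔ F₂) := charZero_of_injective_algebraMap
    (algebraMap ℚ ↥(F₁ ⊔ F₂)).injective
  have hle1 : ∀ x, φ₁ x ∈ F₁ ⊔ F₂ := fun x => (le_sup_left : F₁ ≤ F₁ ⊔ F₂) ⟨x, rfl⟩
  have hle2 : ∀ x, φ₂ x ∈ F₁ ⊔ F₂ := fun x => (le_sup_right : F₂ ≤ F₁ ⊔ F₂) ⟨x, rfl⟩
  let a₁ : M₁ →+* ↥(F₁ ⊔ F₂) := φ₁.codRestrict (F₁ ⊔ F₂) hle1
  let a₂ : M₂ →+* ↥(F₁ ⊔ F₂) := φ₂.codRestrict (F₁ ⊔ F₂) hle2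
  refine ⟨↥(F₁ ⊔ F₂), inferInstance, nf_of _ _ f3, a₁.toAlgebra, a₂.toAlgebra,
    (algebraMap ↥(F₁ ⊔ F₂) Ω), ?_, fun x => rfl, fun x => rfl⟩
  intro T h1 h2
  rw [eq_top_iff]
  rintro ⟨z, hz⟩ -
  -- the image of `T` in `Ω`
  have hT : F₁ ⊔ F₂ ≤ (Subfield.toIntermediateField (T.map (algebraMap ↥(F₁ ⊔ F₂) Ω))
      (fun q => by
        refine ⟨algebraMap ℚ ↥(F₁ ⊔ F₂) q, ?_, rfl⟩
        rw [eq_ratCast]
        exact SubfieldClass.ratCast_mem T q)) := by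
    refine sup_le ?_ ?_
    · rintro _ ⟨x, rfl⟩
      exact ⟨a₁ x, h1 x, rfl⟩
    · rintro _ ⟨x, rfl⟩
      exact ⟨a₂ x, h2 x, rfl⟩
  obtain ⟨t, ht, he⟩ := hT hz
  have : t = ⟨z, hz⟩ := Subtype.ext he
  rw [← this]
  exact ht

/-! ### The union of the images of the fields in the class -/

section om

variable (Ω : Type) [Field Ω] [CharZero Ω] (S : Finset ℤ) (A B : ℤ)

/-- The union of the images of the fields in the class. -/
def Om : Set Ω := {x | ∃ (M : Type) (_ : Field M) (_ : NumberField M) (φ : M →+* Ω),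
  InClass S A B M ∧ x ∈ Set.range φ}

variable {Ω S A B}

theorem om_two (hSp : ∀ Q ∈ S, IsPr Q) {x y : Ω} (hx : x ∈ Om Ω S A B) (hy : y ∈ Om Ω S A B) :
    ∃ (M : Type) (_ : Field M) (_ : NumberField M) (φ : M →+* Ω), InClass S A B M ∧
      ∃ a b : M, φ a = x ∧ φ b = y := by
  obtain ⟨M₁, i1, i2, φ₁, h1, a, rfl⟩ := hx
  obtain ⟨M₂, i3, i4, φ₂, h2, b, rfl⟩ := hy
  obtain ⟨N, j1, j2, j3, j4, ψ, hg, e1, e2⟩ := exists_comp φ₁ φ₂
  haveI := h1.galois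
  haveI := h2.galois
  exact ⟨N, j1, j2, ψ, InClass.comp hSp hg h1 h2, _, _, e1 a, e2 b⟩

theorem om_field (hSp : ∀ Q ∈ S, IsPr Q) {K : Type} [Field K] [NumberField K] (φ₀ : K →+* Ω)
    (hK : InClass S A B K) : ∃ T : Subfield Ω, (T : Set Ω) = Om Ω S A B := by
  refine ⟨
    { carrier := Om Ω S A B
      mul_mem' := ?_
      one_mem' := ?_
      add_mem' := ?_
      zero_mem' := ?_
      neg_mem' := ?_
      inv_mem' := ?_ }, rfl⟩
  · intro x y hx hy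
    obtain ⟨M, i1, i2, φ, h, a, b, rfl, rfl⟩ := om_two hSp hx hy
    exact ⟨M, i1, i2, φ, h, a * b, map_mul _ _ _⟩
  · exact ⟨K, _, _, φ₀, hK, 1, map_one _⟩
  · intro x y hx hy
    obtain ⟨M, i1, i2, φ, h, a, b, rfl, rfl⟩ := om_two hSp hx hy
    exact ⟨M, i1, i2, φ, h, a + b, map_add _ _ _⟩
  · exact ⟨K, _, _, φ₀, hK, 0, map_zero _⟩
  · rintro x ⟨M, i1, i2, φ, h, a, rfl⟩
    exact ⟨M, i1, i2, φ, h, -a, map_neg _ _⟩
  · rintro x ⟨M, i1, i2, φ, h, a, rfl⟩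
    exact ⟨M, i1, i2, φ, h, a⁻¹, map_inv₀ _ _⟩

theorem om_stable (σ : Ω →+* Ω) {x : Ω} (hx : x ∈ Om Ω S A B) : σ x ∈ Om Ω S A B := by
  obtain ⟨M, i1, i2, φ, h, a, rfl⟩ := hx
  exact ⟨M, i1, i2, σ.comp φ, h, a, rfl⟩

theorem om_np (hSp : ∀ Q ∈ S, IsPr Q)
    (h : ∀ (M : Type) [Field M] [NumberField M], InClass S A B M →
      ∀ x y : M, y ^ 2 ≠ x ^ 3 + A * x + B) {x y : Ω} (hx : x ∈ Om Ω S A B)
    (hy : y ∈ Om Ω S A B) : y ^ 2 ≠ x ^ 3 + A * x + B := by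
  obtain ⟨M, i1, i2, φ, hM, a, b, rfl, rfl⟩ := om_two hSp hx hy
  intro he
  apply h M hM a b
  apply φ.injective
  simp only [map_pow, map_add, map_mul, map_intCast]
  exact he

theorem om_sub {F : Type} [Field F] [NumberField F] (φ : F →+* Ω)
    (hφ : ∀ x, φ x ∈ Om Ω S A B) : ∃ (M : Type) (_ : Field M) (_ : NumberField M),
      InClass S A B M ∧ Nonempty (F →+* M) := by
  obtain ⟨t, ht⟩ := Field.exists_primitive_element ℚ F
  obtain ⟨M, i1, i2, ψ, hM, m, hm⟩ := hφ t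
  refine ⟨M, i1, i2, hM, ?_⟩
  have h1 : ∀ x : F, φ x ∈ ψ.fieldRange := by
    intro x
    have h2 : x ∈ (⊤ : IntermediateField ℚ F) := trivial
    rw [← ht] at h2
    have h3 : IntermediateField.adjoin ℚ {t} ≤ Subfield.toIntermediateField
        (ψ.fieldRange.comap φ) (fun q => by
          rw [eq_ratCast]
          exact SubfieldClass.ratCast_mem _ q) := by
      rw [IntermediateField.adjoin_le_iff, Set.singleton_subset_iff]
      exact ⟨m, hm⟩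
    exact h3 h2
  have h2 : Function.Bijective ψ.rangeRestrictField := by
    refine ⟨fun a b hab => ψ.injective (congrArg Subtype.val hab), ?_⟩
    rintro ⟨_, a, rfl⟩
    exact ⟨a, rfl⟩
  exact ⟨(RingEquiv.ofBijective _ h2).symm.toRingHom.comp (φ.codRestrict ψ.fieldRange h1)⟩

theorem om_sqrt {d : ℤ}
    (h : ∀ (M : Type) [Field M] [NumberField M] (r : M), r ^ 2 = (d : M) →
      (∀ T : Subfield M, r ∈ T → T = ⊤) → InClass S A B M)
    {r : Ω} (hr : r ^ 2 = (d : Ω)) : r ∈ Om Ω S A B := by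
  have hint : IsIntegral ℚ r := by
    refine ⟨X ^ 2 - C (d : ℚ), by monicity!, ?_⟩
    simp only [eval₂_sub, eval₂_pow, eval₂_X, eval₂_C]
    rw [hr, map_intCast, sub_self]
  haveI f3 : FiniteDimensional ℚ ℚ⟮r⟯ := IntermediateField.adjoin.finiteDimensional hint
  haveI f4 : CharZero ℚ⟮r⟯ := charZero_of_injective_algebraMap (algebraMap ℚ ℚ⟮r⟯).injective
  have f5 : NumberField ℚ⟮r⟯ := nf_of _ _ f3
  refine ⟨ℚ⟮r⟯, inferInstance, f5, algebraMap ℚ⟮r⟯ Ω, ?_, ⟨⟨r,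
    IntermediateField.mem_adjoin_simple_self ℚ r⟩, rfl⟩⟩
  refine h ℚ⟮r⟯ ⟨r, IntermediateField.mem_adjoin_simple_self ℚ r⟩ ?_ ?_
  · apply Subtype.ext
    exact hr
  · intro T hT
    rw [eq_top_iff]
    rintro ⟨z, hz⟩ -
    have h3 : ℚ⟮r⟯ ≤ Subfield.toIntermediateField (T.map (algebraMap ℚ⟮r⟯ Ω))
        (fun q => by
          refine ⟨algebraMap ℚ ℚ⟮r⟯ q, ?_, rfl⟩
          rw [eq_ratCast]
          exact SubfieldClass.ratCast_mem T q) := by
      rw [IntermediateField.adjoin_le_iff, Set.singleton_subset_iff]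
      exact ⟨_, hT, rfl⟩
    obtain ⟨t, ht, he⟩ := h3 hz
    have : t = ⟨z, hz⟩ := Subtype.ext he
    rw [← this]
    exact ht

end om

/-! ### The primes -/

/-- The good primes give quadratic fields in the class. -/
theorem quad_of_Tp {S : Finset ℤ} (hS : ∀ Q ∈ S, IsPr Q ∧ Q % 8 = 1) {A B : ℤ} {ℓ : ℕ}
    (hℓ : ℓ.Prime) (h : Tp A B S ℓ) (M : Type) [Field M] [NumberField M] (r : M)
    (hr : r ^ 2 = ((ℓ : ℤ) : M)) (hgen : ∀ T : Subfield M, r ∈ T → T = ⊤) : InClass S A B M := by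
  obtain ⟨hℓS, h4, hsq, hnz⟩ := h
  refine quad_class (by omega) hr hgen hS (fun Q hQ => ?_) (fun P hP hPℓ => ?_)
  · obtain ⟨hQ1, hQ2⟩ := hS Q hQ
    obtain ⟨q, rfl⟩ : ∃ q : ℕ, Q = (q : ℤ) := ⟨Q.toNat, (Int.toNat_of_nonneg hQ1.1.le).symm⟩
    have hq : q.Prime := Nat.prime_iff_prime_int.2 hQ1.2
    haveI := Fact.mk hq
    haveI := Fact.mk hℓ
    obtain ⟨c, hc⟩ := hsq _ hQ
    have hne : q ≠ ℓ := by
      rintro rfl
      exact hℓS hQ
    refine ⟨fun hd => ?_, ?_⟩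
    · rw [Int.natCast_dvd_natCast] at hd
      exact hne ((Nat.prime_dvd_prime_iff_eq hq hℓ).1 hd)
    · have h1 : IsSquare (q : ZMod ℓ) := by
        refine ⟨(c : ZMod ℓ), ?_⟩
        rw [← ZMod.intCast_zmod_eq_zero_iff_dvd] at hc
        push_cast at hc
        linear_combination - hc
      have hℓ2 : q ≠ 2 := by
        rintro rfl
        norm_num at hQ2
      have h2 := (ZMod.exists_sq_eq_prime_iff_of_mod_four_eq_one h4 hℓ2).1 h1
      obtain ⟨y, hy⟩ := h2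
      obtain ⟨e, rfl⟩ := ZMod.intCast_surjective y
      refine ⟨e, ?_⟩
      rw [← ZMod.intCast_zmod_eq_zero_iff_dvd]
      push_cast
      rw [hy]
      ring
  · have hP' : P = (ℓ : ℤ) := by
      obtain ⟨q, rfl⟩ : ∃ q : ℕ, P = (q : ℤ) := ⟨P.toNat, (Int.toNat_of_nonneg hP.1.le).symm⟩
      rw [Int.natCast_dvd_natCast] at hPℓ
      rw [(Nat.prime_dvd_prime_iff_eq (Nat.prime_iff_prime_int.2 hP.2) hℓ).1 hPℓ]
    rw [hP']
    exact hnz

/-! ### Points -/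

theorem np_iff {F : Type} [Field F] [CharZero F] (W : WeierstrassCurve F) (h1 : W.a₁ = 0)
    (h2 : W.a₂ = 0) (h3 : W.a₃ = 0) (hd : 4 * W.a₄ ^ 3 + 27 * W.a₆ ^ 2 ≠ 0) :
    Subsingleton W.toAffine.Point ↔ ∀ x y : F, y ^ 2 ≠ x ^ 3 + W.a₄ * x + W.a₆ := by
  have hΔ : W.toAffine.Δ ≠ 0 := by
    intro h
    apply hd
    rw [WeierstrassCurve.Δ, WeierstrassCurve.b₂, WeierstrassCurve.b₄, WeierstrassCurve.b₆,
      WeierstrassCurve.b₈] at h
    change - (W.a₁ ^ 2 + 4 * W.a₂) ^ 2 * (W.a₁ ^ 2 * W.a₆ + 4 * W.a₂ * W.a₆ -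
      W.a₁ * W.a₃ * W.a₄ + W.a₂ * W.a₃ ^ 2 - W.a₄ ^ 2) - 8 * (2 * W.a₄ + W.a₁ * W.a₃) ^ 3 -
      27 * (W.a₃ ^ 2 + 4 * W.a₆) ^ 2 + 9 * (W.a₁ ^ 2 + 4 * W.a₂) * (2 * W.a₄ + W.a₁ * W.a₃) *
      (W.a₃ ^ 2 + 4 * W.a₆) = 0 at h
    rw [h1, h2, h3] at h
    have h4 : (-16 : F) * (4 * W.a₄ ^ 3 + 27 * W.a₆ ^ 2) = 0 := by linear_combination h
    exact (mul_eq_zero.1 h4).resolve_left (by norm_num)
  have hE : ∀ x y : F, W.toAffine.Equation x y ↔ y ^ 2 = x ^ 3 + W.a₄ * x + W.a₆ := by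
    intro x y
    rw [WeierstrassCurve.Affine.equation_iff]
    change y ^ 2 + W.a₁ * x * y + W.a₃ * y = x ^ 3 + W.a₂ * x ^ 2 + W.a₄ * x + W.a₆ ↔ _
    rw [h1, h2, h3]
    constructor
    · intro h
      linear_combination h
    · intro h
      linear_combination h
  constructor
  · intro hs x y he
    have h4 := (WeierstrassCurve.Affine.equation_iff_nonsingular_of_Δ_ne_zero hΔ).1
      ((hE x y).2 he)
    have h5 : (WeierstrassCurve.Affine.Point.some x y h4 : W.toAffine.Point) =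
      WeierstrassCurve.Affine.Point.zero := Subsingleton.elim _ _
    cases h5
  · intro h
    constructor
    have key : ∀ P : W.toAffine.Point, P = WeierstrassCurve.Affine.Point.zero := by
      intro P
      cases P with
      | zero => rfl
      | some x y hns => exact absurd ((hE x y).1 hns.1) (h x y)
    intro P Q
    rw [key P, key Q]

end Pool.Agent.U693.UN
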