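import Pool.Agent.U693.UN.Cls
import Pool.Agent.N362.PQ.UR
import Pool.Agent.N296.PQ.SPD

/-!
# The given field is in the class
-/

set_option autoImplicit false
set_option linter.all false

open Polynomial IsDedekindDomain NumberField
open scoped Classical IntermediateField

namespace Pool.Agent.U693.UN

open Pool.Agent.N922.PQ hiding Cnd cnd_sq cnd_mul cnd_sig base_sq odd_top ns_top cnd_top
open Pool.Agent.N874.PP (Ev Sq1 U0)

theorem val_pr (v : HeightOneSpectrum ℤ) {P : ℤ} (hP : IsPr P) (h : v.valuation ℚ (P : ℚ) < 1) :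
    v.valuation ℚ (P : ℚ) = WithZero.exp (-1 : ℤ) := by
  refine le_antisymm (val_le_exp v ?_ h) (val_sqfree hP.2.irreducible.squarefree v)
  exact_mod_cast hP.2.ne_zero

/-- The field `K = ℚ(γ)` is in the class. -/
theorem base_class {K : Type} [Field K] [NumberField K] [IsGalois ℚ K] {n : ℕ}
    (hn : Module.finrank ℚ K = 2 ^ n)
    (h2 : ∀ 𝔭 : Ideal (𝓞 K), 𝔭.IsPrime → (2 : 𝓞 K) ∉ 𝔭 ^ 2) {γ : K} {g : ℤ[X]} {δ : ℤ}
    (hG : Gen ℚ γ g δ) {S T₀ : Finset ℤ} {s : ℤ → ℤ} (hS : GoodS S s) (hdis : Disjoint S T₀)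
    (hδ : ∀ P : ℤ, IsPr P → P ∣ δ → P ∈ T₀) (hsp : ∀ Q ∈ S, SplitMod Q g) {A B : ℤ}
    (hnz : ∀ P ∈ T₀, ∀ z : ℤ, ¬ P ∣ z ^ 3 + A * z + B) : InClass S A B K := by
  -- primes which do not divide `δ`
  have key : ∀ (w : HeightOneSpectrum (𝓞 K)) (P : ℤ), IsPr P → Ov P w → P ∉ T₀ → ¬ Ov δ w := by
    intro w P hP hw hPT hδw
    apply hPT
    apply hδ P hP
    by_contra hnd
    exact one_mem_of ((hP.2.irreducible.coprime_iff_not_dvd).2 hnd) hw hδw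
  have hval : ∀ (w : HeightOneSpectrum (𝓞 K)) (P : ℤ), IsPr P → Ov P w → ¬ Ov δ w →
      w.valuation K (P : K) = WithZero.exp (-1 : ℤ) := by
    intro w P hP hw hδw
    obtain ⟨v, hv⟩ := (Pool.Agent.N362.PQ.ur ℚ K ℤ (𝓞 K) γ g δ hG).1 w hδw
    have h3 : w.valuation K (P : K) = v.valuation ℚ (P : ℚ) := by
      rw [← hv, map_intCast (algebraMap ℚ K)]
    rw [h3]
    apply val_pr v hP
    rw [← h3]
    exact (ov_val P w).1 hw
  refine ⟨inferInstance, ⟨n, hn⟩, h2, fun Q hQ 𝔭 h𝔭 hQ𝔭 => ?_, fun P hP => ?_⟩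
  · obtain ⟨w, rfl, hw⟩ := hos h𝔭 (hS Q hQ).1.2.ne_zero hQ𝔭
    have hδw := key w Q (hS Q hQ).1 hw (Finset.disjoint_left.1 hdis hQ)
    refine ⟨not_mem_sq w (hval w Q (hS Q hQ).1 hw hδw), fun x => ?_⟩
    by_cases hx : x = 0
    · refine ⟨0, ?_⟩
      rw [hx, Int.cast_zero, sub_zero]
      exact zero_mem _
    obtain ⟨v, hv⟩ := (Pool.Agent.N362.PQ.ur ℚ K ℤ (𝓞 K) γ g δ hG).1 w hδw
    have hx' : (x : K) ≠ 0 := by
      rw [Ne, RingOfIntegers.coe_eq_zero_iff]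
      exact hx
    obtain ⟨s₀, hs₀⟩ := Pool.Agent.N296.PQ.spd ℚ K (𝓞 K) γ g δ hG Q (hS Q hQ).1.2 (hsp Q hQ) w hw
      hδw (x : K) hx'
    have hx1 : w.valuation K (x : K) ≤ 1 := w.valuation_le_one x
    have hs1 : v.valuation ℚ s₀ ≤ 1 := by
      rw [← hv]
      have e : algebraMap ℚ K s₀ = (x : K) - ((x : K) - algebraMap ℚ K s₀) := by ring
      rw [e]
      exact (Valuation.map_sub _ _ _).trans (max_le hx1 (hs₀.le.trans hx1))
    obtain ⟨z₁, hz₁⟩ := poly_approx v hs1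
    refine ⟨z₁, ?_⟩
    rw [← HeightOneSpectrum.valuation_lt_one_iff_mem (K := K)]
    change w.valuation K (algebraMap (𝓞 K) K (x - (z₁ : 𝓞 K))) < 1
    have e : algebraMap (𝓞 K) K (x - (z₁ : 𝓞 K)) = ((x : K) - algebraMap ℚ K s₀) +
        algebraMap ℚ K (s₀ - algebraMap ℤ ℚ z₁) := by
      rw [map_sub, map_sub, map_intCast, eq_intCast, map_intCast]
      ring
    rw [e]
    refine lt_of_le_of_lt (Valuation.map_add _ _ _) (max_lt (lt_of_lt_of_le hs₀ hx1) ?_)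
    rw [hv]
    exact hz₁
  · rintro ⟨𝔭, h𝔭, hP2⟩
    obtain ⟨w, rfl, hw⟩ := hos h𝔭 hP.2.ne_zero (Ideal.pow_le_self two_ne_zero hP2)
    apply hnz P
    by_contra hPT
    exact not_mem_sq w (hval w P hP hw (key w P hP hw hPT)) hP2

end Pool.Agent.U693.UN
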