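import Pool.Agent.Q283.TW.Dens

/-!
# Chebotarev: preparations
-/

set_option autoImplicit false
set_option linter.all false

open Polynomial NumberField Pool.Agent.W401.Cheb
open scoped Classical

namespace Pool.Agent.U693.UN

/-! ### Groups -/

theorem exists_fpf {G Ω : Type} [Group G] [Finite G] [Finite Ω] [MulAction G Ω]
    (htr : ∀ x y : Ω, ∃ g : G, g • x = y) (h2 : 2 ≤ Nat.card Ω) : ∃ g : G, ∀ x : Ω, g • x ≠ x := by
  by_contra hcon
  push Not at hcon
  letI := Fintype.ofFinite G
  letI := Fintype.ofFinite Ω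
  have h1 := MulAction.sum_card_fixedBy_eq_card_orbits_mul_card_group G Ω
  haveI hsub : Subsingleton (MulAction.orbitRel.Quotient G Ω) := by
    constructor
    intro a b
    induction a using Quotient.inductionOn' with
    | _ x =>
      induction b using Quotient.inductionOn' with
      | _ y =>
        apply Quotient.sound'
        obtain ⟨g, hg⟩ := htr y x
        exact ⟨g, hg⟩
  have h3 : Fintype.card (MulAction.orbitRel.Quotient G Ω) ≤ 1 := Fintype.card_le_one_iff_subsingleton.2 hsub
  have h4 : ∑ g : G, Fintype.card (MulAction.fixedBy Ω g) ≤ Fintype.card G := by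
    rw [h1]
    calc _ ≤ 1 * Fintype.card G := Nat.mul_le_mul_right _ h3
      _ = _ := one_mul _
  have h5 : Fintype.card G < ∑ g : G, Fintype.card (MulAction.fixedBy Ω g) := by
    rw [← Finset.card_univ, Finset.card_eq_sum_ones]
    apply Finset.sum_lt_sum
    · intro g _
      obtain ⟨x, hx⟩ := hcon g
      exact Fintype.card_pos_iff.2 ⟨⟨x, hx⟩⟩
    · refine ⟨1, Finset.mem_univ _, ?_⟩
      have h6 : Fintype.card (MulAction.fixedBy Ω (1 : G)) = Nat.card Ω := by
        rw [← Nat.card_eq_fintype_card]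
        refine Nat.card_congr ⟨fun x => x.1, fun x => ⟨x, one_smul G x⟩, fun x => rfl, fun x => rfl⟩
      rw [h6]
      omega
  omega

theorem perm_four : ∀ π : Equiv.Perm (Fin 3), (∀ i, π i ≠ i) → ∀ i, π (π (π (π i))) ≠ i := by
  decide

theorem four_fpf {G Ω : Type} [Group G] [MulAction G Ω] (h3 : Nat.card Ω = 3) (g : G)
    (hg : ∀ x : Ω, g • x ≠ x) (x : Ω) : g ^ 4 • x ≠ x := by
  haveI : Finite Ω := Nat.finite_of_card_ne_zero (by omega)
  let e : Ω ≃ Fin 3 := Finite.equivFinOfCardEq h3
  let π : Equiv.Perm (Fin 3) := (e.symm.trans (MulAction.toPerm g)).trans e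
  have hπ : ∀ i, π i = e (g • e.symm i) := fun i => rfl
  have h1 : ∀ i, π i ≠ i := by
    intro i hi
    rw [hπ] at hi
    apply hg (e.symm i)
    rw [← e.apply_eq_iff_eq, hi, Equiv.apply_symm_apply]
  intro h4
  apply perm_four π h1 (e x)
  simp only [hπ, Equiv.symm_apply_apply]
  have h5 : g • g • g • g • x = g ^ 4 • x := by
    simp only [pow_succ, pow_zero, one_mul, mul_smul]
  rw [h5, h4]

/-! ### Frobenius -/

section frob

variable {L : Type} [Field L] [NumberField L] {p : ℕ} [Fact p.Prime] {k : Type} [Field k]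
  [CharP k p]

theorem int_of_pow {x : k} (h : x ^ p = x) : ∃ z : ℤ, x = (z : k) := by
  have h1 : x ∈ (⊥ : Subfield k) := (Subfield.mem_bot_iff_pow_eq_self k p).2 h
  rw [← ZMod.fieldRange_castHom_eq_bot p] at h1
  obtain ⟨y, hy⟩ := h1
  obtain ⟨z, rfl⟩ := ZMod.intCast_surjective y
  refine ⟨z, ?_⟩
  rw [← hy, map_intCast]

theorem int_pow (z : ℤ) : ((z : k)) ^ p = (z : k) := by
  have h1 : ((z : k)) = ZMod.castHom (dvd_refl p) k (z : ZMod p) := by
    rw [map_intCast]
  rw [h1, ← map_pow, ZMod.pow_card]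

theorem int_zero (z : ℤ) : ((z : k)) = 0 ↔ (p : ℤ) ∣ z := CharP.intCast_eq_zero_iff k p z

/-- squares -/
theorem frob_sq {φ : 𝓞 L →+* k} {g : Gal(L/ℚ)} (hg : HasFrob p φ g) {x : 𝓞 L} {a : ℤ}
    (hx : x ^ 2 = (a : 𝓞 L)) (hpa : ¬ (p : ℤ) ∣ 2 * a) : g • x = x ↔ ∃ c : ℤ, (p : ℤ) ∣ c ^ 2 - a := by
  have hφx : φ x ^ 2 = (a : k) := by rw [← map_pow, hx, map_intCast]
  constructor
  · intro h
    have h1 := hg x
    rw [h] at h1
    obtain ⟨c, hc⟩ := int_of_pow (p := p) h1.symm
    refine ⟨c, ?_⟩
    rw [← int_zero (k := k) (p := p)]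
    push_cast
    rw [← hc, hφx, sub_self]
  · rintro ⟨c, hc⟩
    rw [← int_zero (k := k) (p := p)] at hc
    push_cast at hc
    have h1 : (φ x - (c : k)) * (φ x + (c : k)) = 0 := by linear_combination hφx - hc
    have h2 : φ x ^ p = φ x := by
      rcases mul_eq_zero.1 h1 with h | h
      · rw [sub_eq_zero.1 h]
        exact int_pow c
      · have h3 : φ x = ((-c : ℤ) : k) := by push_cast; exact eq_neg_of_add_eq_zero_left h
        rw [h3]
        exact int_pow _
    have h3 : (g • x) ^ 2 = x ^ 2 := by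
      rw [← smul_pow', hx]
      exact map_intCast (MulSemiringAction.toRingHom Gal(L/ℚ) (𝓞 L) g) a
    rcases sq_eq_sq_iff_eq_or_eq_neg.1 h3 with h4 | h4
    · exact h4
    · exfalso
      have h5 := hg x
      rw [h4, h2, map_neg] at h5
      apply hpa
      have h6 : (2 : k) * φ x = 0 := by linear_combination - h5
      rw [← int_zero (k := k) (p := p)]
      push_cast
      rw [← hφx]
      linear_combination φ x * h6

/-- roots of the cubic -/
theorem frob_root {φ : 𝓞 L →+* k} {g : Gal(L/ℚ)} (hg : HasFrob p φ g) {x : 𝓞 L} {A B : ℤ}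
    (hx : x ^ 3 + A * x + B = 0) (hD : ¬ (p : ℤ) ∣ 4 * A ^ 3 + 27 * B ^ 2) :
    g • x = x ↔ ∃ z : ℤ, φ x = (z : k) := by
  constructor
  · intro h
    have h1 := hg x
    rw [h] at h1
    exact int_of_pow (p := p) h1.symm
  · rintro ⟨z, hz⟩
    have h1 := hg x
    rw [hz, int_pow] at h1
    by_contra hne
    have h2 : (g • x) ^ 3 + A * (g • x) + B = 0 := by
      have h3 := congrArg (MulSemiringAction.toRingHom Gal(L/ℚ) (𝓞 L) g) hx
      rw [map_add, map_add, map_mul, map_pow, map_intCast, map_intCast, map_zero] at h3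
      exact h3
    have h4 : (g • x) ^ 2 + (g • x) * x + x ^ 2 + A = 0 := by
      have h5 : (g • x - x) * ((g • x) ^ 2 + (g • x) * x + x ^ 2 + A) = 0 := by
        linear_combination h2 - hx
      rcases mul_eq_zero.1 h5 with h6 | h6
      · exact absurd (sub_eq_zero.1 h6) hne
      · exact h6
    have h5 := congrArg φ h4
    simp only [map_add, map_mul, map_pow, map_intCast, map_zero] at h5
    rw [h1, hz] at h5
    have h6 := congrArg φ hx
    simp only [map_add, map_mul, map_pow, map_intCast, map_zero] at h6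
    rw [hz] at h6
    apply hD
    rw [← int_zero (k := k) (p := p)]
    push_cast
    have e1 : (A : k) = - 3 * (z : k) ^ 2 := by linear_combination h5
    have e2 : (B : k) = 2 * (z : k) ^ 3 := by
      rw [e1] at h6
      linear_combination h6
    rw [e1, e2]
    ring

end frob

end Pool.Agent.U693.UN
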