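import Pool.Agent.U693.UN.Sel
import Pool.Agent.N922.PQ.Unr

/-!
# The class of the number fields
-/

set_option autoImplicit false
set_option linter.all false

open Polynomial IsDedekindDomain WeierstrassCurve WeierstrassCurve.Affine NumberField
open Pool.Agent.TH115.GD
open scoped Classical IntermediateField

namespace Pool.Agent.U693.UN

open Pool.Agent.N922.PQ hiding Cnd cnd_sq cnd_mul cnd_sig base_sq odd_top ns_top cnd_top
open Pool.Agent.N874.PP (Tup chA chB gq tau Two Ev Sq1 U0 sW IsBeta Rt)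
open Pool.Agent.N874.PM (PLoc Lies SelR ShaR)

/-- The class of number fields attached to the finite set `S` of prime numbers and to
`y ^ 2 = x ^ 3 + A x + B`: Galois over `ℚ`, of degree a power of two, `2` is unramified, the primes in
`S` split completely, and the cubic polynomial has no zero modulo the ramified primes. -/
structure InClass (S : Finset ℤ) (A B : ℤ) (M : Type) [Field M] [NumberField M] : Prop where
  galois : IsGalois ℚ M
  degree : ∃ n : ℕ, Module.finrank ℚ M = 2 ^ n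
  two : ∀ 𝔭 : Ideal (𝓞 M), 𝔭.IsPrime → (2 : 𝓞 M) ∉ 𝔭 ^ 2
  split : ∀ Q ∈ S, ∀ 𝔭 : Ideal (𝓞 M), 𝔭.IsPrime → (Q : 𝓞 M) ∈ 𝔭 →
    (Q : 𝓞 M) ∉ 𝔭 ^ 2 ∧ ∀ x : 𝓞 M, ∃ c : ℤ, x - (c : 𝓞 M) ∈ 𝔭
  ram : ∀ P : ℤ, IsPr P → (∃ 𝔭 : Ideal (𝓞 M), 𝔭.IsPrime ∧ (P : 𝓞 M) ∈ 𝔭 ^ 2) →
    ∀ z : ℤ, ¬ P ∣ z ^ 3 + A * z + B

/-- The valuation of an unramified prime number. -/
theorem val_exp {F : Type} [Field F] [NumberField F] (w : HeightOneSpectrum (𝓞 F)) {P : ℤ}
    (hw : Ov P w) (h3 : (P : 𝓞 F) ∉ w.asIdeal ^ 2) :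
    w.valuation F (P : F) = WithZero.exp (-1 : ℤ) := by
  have e : (P : F) = algebraMap (𝓞 F) F (P : 𝓞 F) := by rw [map_intCast]
  rw [e, HeightOneSpectrum.valuation_of_algebraMap]
  have a1 : w.intValuation (P : 𝓞 F) ≤ WithZero.exp (-((1 : ℕ) : ℤ)) := by
    rw [HeightOneSpectrum.intValuation_le_pow_iff_mem, pow_one]
    exact hw
  have a2 : ¬ w.intValuation (P : 𝓞 F) ≤ WithZero.exp (-((2 : ℕ) : ℤ)) := by
    rw [HeightOneSpectrum.intValuation_le_pow_iff_mem]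
    exact h3
  have h0 : w.intValuation (P : 𝓞 F) ≠ 0 := by
    intro h0
    apply a2
    rw [h0]
    exact zero_le'
  rw [← WithZero.exp_log h0] at a1 a2 ⊢
  rw [WithZero.exp_le_exp] at a1 a2
  congr 1
  push_cast at a1 a2
  omega

/-- Conversely. -/
theorem not_mem_sq {F : Type} [Field F] [NumberField F] (w : HeightOneSpectrum (𝓞 F)) {P : ℤ}
    (h : w.valuation F (P : F) = WithZero.exp (-1 : ℤ)) : (P : 𝓞 F) ∉ w.asIdeal ^ 2 := by
  intro h3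
  have e : (P : F) = algebraMap (𝓞 F) F (P : 𝓞 F) := by rw [map_intCast]
  rw [e, HeightOneSpectrum.valuation_of_algebraMap] at h
  have a2 : w.intValuation (P : 𝓞 F) ≤ WithZero.exp (-((2 : ℕ) : ℤ)) := by
    rw [HeightOneSpectrum.intValuation_le_pow_iff_mem]
    exact h3
  rw [h, WithZero.exp_le_exp] at a2
  norm_num at a2

/-- A prime ideal whose square contains a prime number is a prime of height one. -/
theorem hos {F : Type} [Field F] [NumberField F] {𝔭 : Ideal (𝓞 F)} (h𝔭 : 𝔭.IsPrime) {P : ℤ}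
    (hP : P ≠ 0) (h : (P : 𝓞 F) ∈ 𝔭) : ∃ w : HeightOneSpectrum (𝓞 F), w.asIdeal = 𝔭 ∧ Ov P w := by
  refine ⟨⟨𝔭, h𝔭, ?_⟩, rfl, h⟩
  rintro rfl
  rw [Ideal.mem_bot] at h
  exact hP (by exact_mod_cast h)

/-- The set of the primes `2`, `3` and of the ramified primes. -/
def TM (M : Type) [Field M] [NumberField M] : Set ℤ :=
  {P | IsPr P ∧ (P = 2 ∨ P = 3 ∨ ∃ 𝔭 : Ideal (𝓞 M), 𝔭.IsPrime ∧ (P : 𝓞 M) ∈ 𝔭 ^ 2)}

section conv

variable {M : Type} [Field M] [NumberField M] {S : Finset ℤ} {A B : ℤ}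

theorem InClass.spl (h : InClass S A B M) : Spl M (TM M) S where
  ur w P hP hw hPT := by
    refine val_exp w hw fun h2 => hPT ⟨hP, Or.inr (Or.inr ⟨w.asIdeal, w.isPrime, h2⟩)⟩
  dg Q hQ w hw := by
    obtain ⟨h1, h2⟩ := h.split Q hQ w.asIdeal w.isPrime hw
    exact ⟨val_exp w hw h1, h2⟩

theorem InClass.hur (h : InClass S A B M) (w : HeightOneSpectrum (𝓞 M)) (hw : Ov 2 w) :
    w.valuation M 2 = WithZero.exp (-1 : ℤ) := val_two_of h.two w hw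

end conv

theorem two_pr : IsPr 2 := ⟨by norm_num, Int.prime_two⟩

theorem three_pr : IsPr 3 := ⟨by norm_num, Int.prime_three⟩

/-- The conditions on the set of the ramified primes. -/
theorem InClass.tgood {M : Type} [Field M] [NumberField M] {S T₀ J : Finset ℤ} {a b : ℤ} {X' : ℕ}
    {s A B : ℤ → ℤ} (hS : GoodS S s) (hT₀ : GoodT T₀ A B) (hF : Fam X' S s T₀ A B a b)
    (hJ : J ⊆ S)
    (h : InClass S (a * (∏ Q ∈ J, Q) ^ 2) (b * (∏ Q ∈ J, Q) ^ 3) M) : TGood (TM M) S a b where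
  two := ⟨two_pr, Or.inl rfl⟩
  three := ⟨three_pr, Or.inr (Or.inl rfl)⟩
  pr P hP := hP.1
  nz P hP z hz := by
    rcases hP.2 with rfl | rfl | h2
    · exact fam_nt hT₀ hF hT₀.1 z hz
    · exact fam_nt hT₀ hF hT₀.2.1 z hz
    · refine h.ram P hP.1 h2 (z * ∏ Q ∈ J, Q) ?_
      have e : (z * ∏ Q ∈ J, Q) ^ 3 + a * (∏ Q ∈ J, Q) ^ 2 * (z * ∏ Q ∈ J, Q) +
          b * (∏ Q ∈ J, Q) ^ 3 = (∏ Q ∈ J, Q) ^ 3 * (z ^ 3 + a * z + b) := by ring
      rw [e]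
      exact dvd_mul_of_dvd_right hz _
  dis Q hQ hQT := by
    have h8 := (hS Q hQ).2.1
    rcases hQT.2 with h2 | h2 | ⟨𝔭, h𝔭, h2⟩
    · rw [h2] at h8
      norm_num at h8
    · rw [h2] at h8
      norm_num at h8
    · exact (h.split Q hQ 𝔭 h𝔭 (Ideal.pow_le_self two_ne_zero h2)).1 h2

/-- For the twisted polynomial there is no zero modulo the primes in `T₀`. -/
theorem nz_twist {S T₀ J : Finset ℤ} {a b : ℤ} {X' : ℕ}
    {s A B : ℤ → ℤ} (hS : GoodS S s) (hT₀ : GoodT T₀ A B) (hF : Fam X' S s T₀ A B a b)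
    (hJ : J ⊆ S) (hdis : Disjoint S T₀) {P : ℤ} (hP : P ∈ T₀) (z : ℤ) :
    ¬ P ∣ z ^ 3 + a * (∏ Q ∈ J, Q) ^ 2 * z + b * (∏ Q ∈ J, Q) ^ 3 := by
  intro hz
  have hPp := (hT₀.2.2 P hP).1
  have hcop : IsCoprime P (∏ Q ∈ J, Q) := by
    refine IsCoprime.prod_right fun Q hQ => isCoprime_of hPp (hS Q (hJ hQ)).1 ?_
    rintro rfl
    exact Finset.disjoint_left.1 hdis (hJ hQ) hP
  obtain ⟨u, e, hue⟩ := hcop
  apply fam_nt hT₀ hF hP (z * e)
  generalize (∏ Q ∈ J, Q) = D at hz hue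
  obtain ⟨k, hk⟩ := hz
  have hD : e * D = 1 - u * P := by linarith
  have h1 : (z * e) ^ 3 + a * (z * e) + b = e ^ 3 * (z ^ 3 + a * D ^ 2 * z + b * D ^ 3) +
      a * (z * e) * (1 - (e * D) ^ 2) + b * (1 - (e * D) ^ 3) := by ring
  rw [h1, hk, hD]
  have h2 : e ^ 3 * (P * k) + a * (z * e) * (1 - (1 - u * P) ^ 2) + b * (1 - (1 - u * P) ^ 3) =
      P * (e ^ 3 * k + a * (z * e) * (2 * u - u ^ 2 * P) +
        b * (3 * u - 3 * u ^ 2 * P + u ^ 3 * P ^ 2)) := by ring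
  rw [h2]
  exact dvd_mul_right _ _

end Pool.Agent.U693.UN
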