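import Pool.Agent.U693.UN.Cls
import Pool.Agent.N922.PQ.Cnt2

/-!
# A positive proportion of all elliptic curves, over all the fields of the class: counting

Adapted from `Pool.Agent.N922.PQ.Cnt2` (helper922).
-/

set_option autoImplicit false
set_option linter.all false

open Polynomial IsDedekindDomain WeierstrassCurve WeierstrassCurve.Affine NumberField
open Pool.Agent.TH115.GD
open scoped Classical IntermediateField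

namespace Pool.Agent.U693.UN

open Pool.Agent.N922.PQ hiding Cnd cnd_sq cnd_mul cnd_sig base_sq odd_top ns_top cnd_top
open Pool.Agent.N874.PP (Tup chA chB gq tau Two Ev Sq1 U0 sW IsBeta Rt)
open Pool.Agent.N874.PM (PLoc Lies SelR ShaR)

/-- The property of the curve `p`: the cubic polynomial has no zero modulo the primes in `T₀`, and over
ALL the fields `M` in the class the 2-Selmer group is zero, there are no points but the point at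
infinity, and the 2-primary part of the Tate-Shafarevich group is zero. -/
def GoodU (S T₀ : Finset ℤ) (p : ℤ × ℤ) : Prop :=
  (∀ P ∈ T₀, ∀ z : ℤ, ¬ P ∣ z ^ 3 + p.1 * z + p.2) ∧
  ∀ (M : Type) [Field M] [NumberField M], InClass S p.1 p.2 M → GoodV (M := M) (𝓞 M) p

/-- One curve of the family. -/
theorem good_one (H : Parts2) {κ : ℕ} (hLB : LBk κ) (hGFR : Pool.Agent.N874.PM.S_GFR)
    (hFINM : S_FINM) (hTOR : S_TOR) {a b : ℤ} {X' : ℕ}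
    {S T₀ : Finset ℤ} {s A B : ℤ → ℤ} (hS : GoodS S s)
    (hF : Fam X' S s T₀ A B a b) (h4 : (4 : ℤ) ∣ a - b) (hnb : ¬ LBad κ X' S s a b)
    (hT₀ : GoodT T₀ A B) (hdis : Disjoint S T₀) :
    ∃ J ⊆ S, GoodU S T₀ (a * (∏ Q ∈ J, Q) ^ 2, b * (∏ Q ∈ J, Q) ^ 3) := by
  obtain ⟨J, hJ, hsel⟩ := selR_all H hLB hS hF h4 hnb hT₀
  refine ⟨J, hJ, fun P hP z => nz_twist hS hT₀ hF hJ hdis hP z, ?_⟩
  intro M _ _ hM
  haveI := hM.galois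
  obtain ⟨n, hn⟩ := hM.degree
  have hsel' := hsel M n (TM M) hn (InClass.tgood hS hT₀ hF hJ hM) hM.spl hM.hur
  have hD0 : (∏ Q ∈ J, Q) ≠ 0 := by
    rw [Finset.prod_ne_zero_iff]
    exact fun Q hQ => (hS Q (hJ hQ)).1.2.ne_zero
  have h6M : (6 : M) ≠ 0 := by norm_num
  have hdM : 4 * (((a * (∏ Q ∈ J, Q) ^ 2 : ℤ)) : M) ^ 3 +
      27 * (((b * (∏ Q ∈ J, Q) ^ 3 : ℤ)) : M) ^ 2 ≠ 0 := by
    have e : 4 * (((a * (∏ Q ∈ J, Q) ^ 2 : ℤ)) : M) ^ 3 +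
      27 * (((b * (∏ Q ∈ J, Q) ^ 3 : ℤ)) : M) ^ 2 =
        (((∏ Q ∈ J, Q) ^ 6 * dsc a b : ℤ) : M) := by
      simp only [dsc, Int.cast_mul, Int.cast_add, Int.cast_pow, Int.cast_ofNat]
      ring
    rw [e, Int.cast_ne_zero]
    exact mul_ne_zero (pow_ne_zero _ hD0) hF.sq.ne_zero
  obtain ⟨h2, h3⟩ := hGFR M (𝓞 M) _ _ h6M hdM hsel'
  have hfin := hFINM M _ _ hdM h2
  have hD8 : (∏ Q ∈ J, Q) % 8 = 1 := prod_mod8 fun Q hQ => (hS Q (hJ hQ)).2.1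
  obtain ⟨ha, hb⟩ := odd_of (fam_nt hT₀ hF hT₀.1)
  have hAodd : Odd (a * (∏ Q ∈ J, Q) ^ 2) := by
    refine ha.mul (Odd.pow ?_)
    rw [Int.odd_iff]
    omega
  have h4' : (4 : ℤ) ∣ a * (∏ Q ∈ J, Q) ^ 2 - b * (∏ Q ∈ J, Q) ^ 3 := by
    obtain ⟨k, hk⟩ : ∃ k, (∏ Q ∈ J, Q) = 8 * k + 1 := ⟨(∏ Q ∈ J, Q) / 8, by omega⟩
    obtain ⟨l, hl⟩ := h4
    have e : a = b + 4 * l := by linarith
    rw [hk, e]
    exact ⟨l * (8 * k + 1) ^ 2 - 2 * k * b * (8 * k + 1) ^ 2, by ring⟩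
  obtain ⟨w₀, hw₀⟩ := exists_over (𝓞 M)
  have htor := hTOR M (𝓞 M) w₀ (hM.hur w₀ hw₀) _ _ hAodd h4' hfin (by
    haveI := hfin
    exact odd_card (G := Pt (sW (((a * (∏ Q ∈ J, Q) ^ 2 : ℤ)) : M)
      (((b * (∏ Q ∈ J, Q) ^ 3 : ℤ)) : M)) M) h2)
  exact ⟨hsel', htor, h3⟩

/-- The main theorem from the parts; with a bound of order `X ^ 5`. -/
theorem mainU (H : Parts2) (hLB : S_LB) (hFAM : S_FAM2) (hBAD : S_BAD)
    (hGFR : Pool.Agent.N874.PM.S_GFR)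
    (hFINM : S_FINM) (hTOR : S_TOR) (hCRV : S_CRV) {T₀ : Finset ℤ} {A B : ℤ → ℤ}
    (hT₀ : GoodT T₀ A B) (Φ : ℤ → Prop)
    (hEX : ∀ r : ℕ, ∃ (S : Finset ℤ) (s : ℤ → ℤ), GoodS S s ∧ S.card = r ∧ Disjoint S T₀ ∧
      ∀ Q ∈ S, Φ Q) :
    ∃ (S : Finset ℤ) (s : ℤ → ℤ), GoodS S s ∧ Disjoint S T₀ ∧ (∀ Q ∈ S, Φ Q) ∧
    ∃ (P X₀ : ℕ) (c : ℝ), 0 < c ∧ 1 ≤ P ∧ ∀ X : ℕ, X₀ ≤ X → ∀ H : ℕ, 27 * (X * P) ^ 6 ≤ H →
      c * (X : ℝ) ^ 5 ≤ ({p : ℤ × ℤ | Crv H p.1 p.2 ∧ GoodU S T₀ p}.ncard : ℝ) := by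
  obtain ⟨κ, hLB'⟩ := hLB
  obtain ⟨S, s, c, hS, hdis, hsp, hc, X₀, hX₀⟩ := good_card2 hFAM hBAD κ hT₀ Φ hEX
  have hSpos : 0 < ∏ Q ∈ S, Q := Finset.prod_pos fun Q hQ => (hS Q hQ).1.1
  refine ⟨S, s, hS, hdis, hsp, (∏ Q ∈ S, Q).toNat, X₀, c / 2 ^ S.card,
    by positivity, by omega, fun X hX Hh hHh => ?_⟩
  have hN := hX₀ X hX
  set Hs := {p : ℤ × ℤ | Crv Hh p.1 p.2 ∧ GoodU S T₀ p} with hH
  set G := {p : ℤ × ℤ | (Fam X S s T₀ A B p.1 p.2 ∧ (4 : ℤ) ∣ p.1 - p.2) ∧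
    ¬ LBad κ X S s p.1 p.2} with hG'
  have hHf : Hs.Finite := (crv_fin Hh).subset fun p hp => hp.1
  have hbd : 27 * ((X : ℤ) * ∏ Q ∈ S, Q) ^ 6 ≤ Hh := by
    have h1 : ((27 * (X * (∏ Q ∈ S, Q).toNat) ^ 6 : ℕ) : ℤ) ≤ Hh := by exact_mod_cast hHh
    have e1 : (((∏ Q ∈ S, Q).toNat : ℕ) : ℤ) = ∏ Q ∈ S, Q := Int.toNat_of_nonneg hSpos.le
    rw [Nat.cast_mul, Nat.cast_pow, Nat.cast_mul, e1] at h1
    exact_mod_cast h1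
  have hcard := card_fib hHf S
    (fun (J : Finset ℤ) (p : ℤ × ℤ) => (p.1 * (∏ Q ∈ J, Q) ^ 2, p.2 * (∏ Q ∈ J, Q) ^ 3)) (G := G) (by
      rintro p ⟨⟨hpF, hp4⟩, hnb⟩
      obtain ⟨J, hJ, hgood⟩ := good_one H hLB' hGFR hFINM hTOR hS hpF hp4 hnb hT₀ hdis
      exact ⟨J, hJ, hCRV X Hh S T₀ s A B p.1 p.2 hS hT₀ hpF J hJ hbd, hgood⟩) (by
      intro J hJ x hx y hy hxy
      have hD0 : (∏ Q ∈ J, Q) ≠ 0 := by
        rw [Finset.prod_ne_zero_iff]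
        exact fun Q hQ => (hS Q (hJ hQ)).1.2.ne_zero
      rw [Prod.mk.injEq] at hxy
      exact twist_inj hD0 hxy.1 hxy.2)
  have hcard' : (G.ncard : ℝ) ≤ 2 ^ S.card * Hs.ncard := by exact_mod_cast hcard
  calc c / 2 ^ S.card * (X : ℝ) ^ 5
      = c * (X : ℝ) ^ 5 / 2 ^ S.card := by ring
    _ ≤ (G.ncard : ℝ) / 2 ^ S.card := by gcongr
    _ ≤ (2 ^ S.card * Hs.ncard) / 2 ^ S.card := by gcongr
    _ = Hs.ncard := by field_simp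

end Pool.Agent.U693.UN
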