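import Pool.Agent.U693.UN.Base

/-!
# The class is closed under composita
-/

set_option autoImplicit false
set_option linter.all false

open Polynomial IsDedekindDomain NumberField
open scoped Classical IntermediateField Pointwise

namespace Pool.Agent.U693.UN

open Pool.Agent.N922.PQ hiding Cnd cnd_sq cnd_mul cnd_sig base_sq odd_top ns_top cnd_top

section one

variable {N : Type} [Field N] [NumberField N]

/-- A prime with trivial inertia group is unramified over `ℚ`. -/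
theorem unr_of_inertia [IsGalois ℚ N] (w : HeightOneSpectrum (𝓞 N)) {P : ℤ} (hP : IsPr P)
    (hw : Ov P w) (h : ∀ σ : Gal(N/ℚ), (∀ x : 𝓞 N, σ • x - x ∈ w.asIdeal) → σ = 1) :
    w.valuation N (P : N) = WithZero.exp (-1 : ℤ) := by
  have hl : w.asIdeal.LiesOver (belowZ w).asIdeal := belowZ_lies w
  have hmax : (belowZ w).asIdeal.IsMaximal := (belowZ w).isMaximal
  have hpf : PerfectField (belowZ w).asIdeal.ResidueField := perf _ (fin_quotZ (belowZ w))
  have hI : Nat.card (w.asIdeal.inertia Gal(N/ℚ)) = 1 := by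
    rw [Subgroup.card_eq_one, Subgroup.eq_bot_iff_forall]
    intro σ hσ
    exact h σ hσ
  have h1 := Ideal.card_inertia_eq_ramificationIdxIn (G := Gal(N/ℚ)) (belowZ w).asIdeal w.asIdeal
  rw [hI, Ideal.ramificationIdxIn_eq_ramificationIdx (belowZ w).asIdeal w.asIdeal
    Gal(N/ℚ), ← Ideal.ramificationIdx'_eq_ramificationIdx' (belowZ w).asIdeal
    w.asIdeal (fun h0 => (belowZ w).ne_bot
      ((Ideal.map_eq_bot_iff_of_injective (FaithfulSMul.algebraMap_injective _ _)).1 h0))] at h1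
  have h2 := HeightOneSpectrum.valuation_liesOver N (belowZ w) w (P : ℚ)
  rw [← h1, pow_one, map_intCast (algebraMap ℚ N)] at h2
  rw [← h2]
  apply val_pr _ hP
  rw [h2]
  exact (ov_val P w).1 hw

/-- A prime with trivial Frobenius automorphism has degree one. -/
theorem res_of_frob [IsGalois ℚ N] (w : HeightOneSpectrum (𝓞 N))
    (h : IsArithFrobAt ℤ (1 : Gal(N/ℚ)) w.asIdeal) (x : 𝓞 N) :
    ∃ c : ℤ, x - (c : 𝓞 N) ∈ w.asIdeal := by
  haveI hmax : w.asIdeal.IsMaximal := w.isMaximal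
  letI : Field (𝓞 N ⧸ w.asIdeal) := Ideal.Quotient.field _
  haveI : Finite (𝓞 N ⧸ w.asIdeal) := fin_quot w
  haveI : Finite (ℤ ⧸ w.asIdeal.under ℤ) := fin_quotZ (belowZ w)
  haveI : Fintype (𝓞 N ⧸ w.asIdeal) := Fintype.ofFinite _
  set q := Nat.card (ℤ ⧸ w.asIdeal.under ℤ) with hq
  haveI : Nontrivial (ℤ ⧸ w.asIdeal.under ℤ) := by
    haveI : (w.asIdeal.under ℤ).IsMaximal := (belowZ w).isMaximal
    exact Ideal.Quotient.nontrivial_iff.2 this.ne_top
  have hq1 : 1 < q := Finite.one_lt_card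
  have h1 : ∀ y : 𝓞 N ⧸ w.asIdeal, y ^ q = y := by
    intro y
    obtain ⟨z, rfl⟩ := Ideal.Quotient.mk_surjective y
    have h2 := h z
    rw [← map_pow, eq_comm, Ideal.Quotient.eq]
    exact h2
  have hdeg : (X ^ q - X : (𝓞 N ⧸ w.asIdeal)[X]).natDegree = q :=
    FiniteField.X_pow_card_sub_X_natDegree_eq _ hq1
  have hne : (X ^ q - X : (𝓞 N ⧸ w.asIdeal)[X]) ≠ 0 :=
    FiniteField.X_pow_card_sub_X_ne_zero _ hq1
  have hcard : Nat.card (𝓞 N ⧸ w.asIdeal) ≤ q := by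
    rw [Nat.card_eq_fintype_card, ← Finset.card_univ]
    have h3 : (Finset.univ : Finset (𝓞 N ⧸ w.asIdeal)).val ⊆
        (X ^ q - X : (𝓞 N ⧸ w.asIdeal)[X]).roots := by
      intro y _
      rw [mem_roots hne, IsRoot.def, eval_sub, eval_pow, eval_X, h1, sub_self]
    exact (Polynomial.card_le_degree_of_subset_roots h3).trans_eq hdeg
  have hinj : Function.Injective (algebraMap (ℤ ⧸ w.asIdeal.under ℤ) (𝓞 N ⧸ w.asIdeal)) :=
    Ideal.algebraMap_quotient_injective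
  have hbij := Function.Injective.bijective_of_nat_card_le hinj hcard
  obtain ⟨y, hy⟩ := hbij.2 (Ideal.Quotient.mk _ x)
  obtain ⟨c, rfl⟩ := Ideal.Quotient.mk_surjective y
  refine ⟨c, ?_⟩
  rw [← Ideal.Quotient.eq, ← hy]
  change algebraMap (ℤ ⧸ w.asIdeal.under ℤ) (𝓞 N ⧸ w.asIdeal) (Ideal.Quotient.mk _ c) = _
  rw [Ideal.Quotient.algebraMap_mk_of_liesOver, eq_intCast]

/-- The number of the elements of the residue field below. -/
theorem card_res (w : HeightOneSpectrum (𝓞 N)) {P : ℤ} (hP : IsPr P) (hw : Ov P w) :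
    ((Nat.card (ℤ ⧸ w.asIdeal.under ℤ) : ℕ) : ℤ) = P := by
  have hPm : Ideal.span {P} ≤ w.asIdeal.under ℤ := by
    rw [Ideal.span_le, Set.singleton_subset_iff]
    have : algebraMap ℤ (𝓞 N) P ∈ w.asIdeal := by
      rw [eq_intCast]
      exact hw
    exact this
  haveI hmax : (Ideal.span {P}).IsMaximal :=
    PrincipalIdealRing.isMaximal_of_irreducible hP.2.irreducible
  have h2 : w.asIdeal.under ℤ = Ideal.span {P} :=
    (hmax.eq_of_le (belowZ w).isPrime.ne_top hPm).symm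
  rw [h2, Nat.card_congr (Int.quotientSpanEquivZMod P).toEquiv, Nat.card_zmod]
  exact Int.natAbs_of_nonneg hP.1.le

/-- Fermat's little theorem. -/
theorem fermat (w : HeightOneSpectrum (𝓞 N)) {P : ℤ} (hP : IsPr P) (hw : Ov P w) (c : ℤ) :
    ((c : 𝓞 N)) ^ Nat.card (ℤ ⧸ w.asIdeal.under ℤ) - (c : 𝓞 N) ∈ w.asIdeal := by
  have hq : (Nat.card (ℤ ⧸ w.asIdeal.under ℤ)).Prime := by
    rw [Nat.prime_iff_prime_int, card_res w hP hw]
    exact hP.2
  haveI := Fact.mk hq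
  have h1 : ((c ^ Nat.card (ℤ ⧸ w.asIdeal.under ℤ) - c : ℤ) :
      ZMod (Nat.card (ℤ ⧸ w.asIdeal.under ℤ))) = 0 := by
    push_cast
    rw [ZMod.pow_card, sub_self]
  have h2 := (ZMod.intCast_zmod_eq_zero_iff_dvd _ _).1 h1
  rw [card_res w hP hw] at h2
  obtain ⟨k, hk⟩ := h2
  have h3 : ((c : 𝓞 N)) ^ Nat.card (ℤ ⧸ w.asIdeal.under ℤ) - (c : 𝓞 N) = (P : 𝓞 N) * (k : 𝓞 N) := by
    have := congrArg (fun z : ℤ => (z : 𝓞 N)) hk
    simpa using this
  rw [h3]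
  exact Ideal.mul_mem_right _ _ hw

end one

section res

variable {M N : Type} [Field M] [NumberField M] [Field N] [NumberField N] [Algebra M N]
  [IsGalois ℚ M]

/-- Elements of the inertia group act trivially on `M`, if `M` is unramified. -/
theorem res_inertia (w : HeightOneSpectrum (𝓞 N)) {P : ℤ}
    (hun : (below (L := M) w).valuation M (P : M) = WithZero.exp (-1 : ℤ)) (σ : Gal(N/ℚ))
    (hσ : ∀ x : 𝓞 N, σ • x - x ∈ w.asIdeal) (y : M) :
    σ (algebraMap M N y) = algebraMap M N y := by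
  set τ : M ≃ₐ[ℚ] M := AlgEquiv.restrictNormal σ M with hτ
  have hτc : ∀ y : M, algebraMap M N (τ y) = σ (algebraMap M N y) := fun y =>
    AlgEquiv.restrictNormal_commutes σ M y
  have h1 : τ = 1 := by
    refine inertia_of_val (below (L := M) w) hun τ fun y => ?_
    have h2 : algebraMap (𝓞 M) (𝓞 N) (τ • y - y) = σ • (algebraMap (𝓞 M) (𝓞 N) y) -
        algebraMap (𝓞 M) (𝓞 N) y := by
      rw [map_sub]
      congr 1
      apply RingOfIntegers.ext
      exact hτc y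
    change algebraMap (𝓞 M) (𝓞 N) (τ • y - y) ∈ w.asIdeal
    rw [h2]
    exact hσ _
  rw [← hτc, h1]
  rfl

/-- A Frobenius automorphism acts trivially on `M`, if the prime number splits completely in `M`. -/
theorem res_frob (w : HeightOneSpectrum (𝓞 N)) {P : ℤ} (hP : IsPr P) (hw : Ov P w)
    (hun : (below (L := M) w).valuation M (P : M) = WithZero.exp (-1 : ℤ))
    (hres : ∀ x : 𝓞 M, ∃ c : ℤ, x - (c : 𝓞 M) ∈ (below (L := M) w).asIdeal) (σ : Gal(N/ℚ))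
    (hσ : IsArithFrobAt ℤ σ w.asIdeal) (y : M) :
    σ (algebraMap M N y) = algebraMap M N y := by
  set τ : M ≃ₐ[ℚ] M := AlgEquiv.restrictNormal σ M with hτ
  have hτc : ∀ y : M, algebraMap M N (τ y) = σ (algebraMap M N y) := fun y =>
    AlgEquiv.restrictNormal_commutes σ M y
  have h1 : τ = 1 := by
    refine inertia_of_val (below (L := M) w) hun τ fun y => ?_
    have h2 : algebraMap (𝓞 M) (𝓞 N) (τ • y - y) = σ • (algebraMap (𝓞 M) (𝓞 N) y) -
        algebraMap (𝓞 M) (𝓞 N) y := by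
      rw [map_sub]
      congr 1
      apply RingOfIntegers.ext
      exact hτc y
    change algebraMap (𝓞 M) (𝓞 N) (τ • y - y) ∈ w.asIdeal
    rw [h2]
    set z := algebraMap (𝓞 M) (𝓞 N) y with hz
    obtain ⟨c, hc⟩ := hres y
    have hc' : z - (c : 𝓞 N) ∈ w.asIdeal := by
      have : algebraMap (𝓞 M) (𝓞 N) (y - (c : 𝓞 M)) ∈ w.asIdeal := hc
      rw [map_sub, map_intCast] at this
      exact this
    have h3 : σ • z - z ^ Nat.card (ℤ ⧸ w.asIdeal.under ℤ) ∈ w.asIdeal := hσ z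
    have h4 : z ^ Nat.card (ℤ ⧸ w.asIdeal.under ℤ) - (c : 𝓞 N) ^ Nat.card (ℤ ⧸ w.asIdeal.under ℤ) ∈
        w.asIdeal := by
      obtain ⟨k, hk⟩ := sub_dvd_pow_sub_pow z (c : 𝓞 N) (Nat.card (ℤ ⧸ w.asIdeal.under ℤ))
      rw [hk]
      exact Ideal.mul_mem_right _ _ hc'
    have h5 := fermat w hP hw c
    have e : σ • z - z = (σ • z - z ^ Nat.card (ℤ ⧸ w.asIdeal.under ℤ)) +
        (z ^ Nat.card (ℤ ⧸ w.asIdeal.under ℤ) - (c : 𝓞 N) ^ Nat.card (ℤ ⧸ w.asIdeal.under ℤ)) +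
        ((c : 𝓞 N) ^ Nat.card (ℤ ⧸ w.asIdeal.under ℤ) - (c : 𝓞 N)) - (z - (c : 𝓞 N)) := by ring
    rw [e]
    exact sub_mem (add_mem (add_mem h3 h4) h5) hc'
  rw [← hτc, h1]
  rfl

end res

/-- The compositum of two normal extensions is normal. -/
theorem normal_gen {K M₁ M₂ N : Type} [Field K] [Field M₁] [Field M₂] [Field N] [Algebra K M₁]
    [Algebra K M₂] [Algebra K N] [Algebra M₁ N] [Algebra M₂ N] [IsScalarTower K M₁ N]
    [IsScalarTower K M₂ N] [Normal K M₁] [Normal K M₂]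
    (h : (IsScalarTower.toAlgHom K M₁ N).fieldRange ⊔ (IsScalarTower.toAlgHom K M₂ N).fieldRange =
      ⊤) : Normal K N := by
  haveI : Normal K (IsScalarTower.toAlgHom K M₁ N).fieldRange :=
    Normal.of_algEquiv (AlgEquiv.ofInjectiveField (IsScalarTower.toAlgHom K M₁ N))
  haveI : Normal K (IsScalarTower.toAlgHom K M₂ N).fieldRange :=
    Normal.of_algEquiv (AlgEquiv.ofInjectiveField (IsScalarTower.toAlgHom K M₂ N))
  have h4 : Normal K ((IsScalarTower.toAlgHom K M₁ N).fieldRange ⊔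
      (IsScalarTower.toAlgHom K M₂ N).fieldRange : IntermediateField K N) := inferInstance
  rw [h] at h4
  haveI := h4
  exact Normal.of_algEquiv (IntermediateField.topEquiv (F := K) (E := N))

section gal

variable {M₁ M₂ N : Type} [Field M₁] [NumberField M₁] [Field M₂] [NumberField M₂] [Field N]
  [NumberField N] [Algebra M₁ N] [Algebra M₂ N] [IsGalois ℚ M₁] [IsGalois ℚ M₂]

/-- `N` is generated by the images of `M₁` and `M₂`. -/
def Gnd (M₁ M₂ N : Type) [Field M₁] [Field M₂] [Field N] [Algebra M₁ N] [Algebra M₂ N] : Prop :=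
  ∀ T : Subfield N, (∀ x : M₁, algebraMap M₁ N x ∈ T) → (∀ x : M₂, algebraMap M₂ N x ∈ T) → T = ⊤

theorem eq_one_of (hg : Gnd M₁ M₂ N) (σ : Gal(N/ℚ))
    (h1 : ∀ y : M₁, σ (algebraMap M₁ N y) = algebraMap M₁ N y)
    (h2 : ∀ y : M₂, σ (algebraMap M₂ N y) = algebraMap M₂ N y) : σ = 1 := by
  have h3 := hg (RingHom.eqLocusField (σ : N ≃+* N).toRingHom (RingHom.id N)) h1 h2
  ext z
  have h4 : z ∈ RingHom.eqLocusField (σ : N ≃+* N).toRingHom (RingHom.id N) := by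
    rw [h3]
    trivial
  exact h4

theorem gal_comp (hg : Gnd M₁ M₂ N) : IsGalois ℚ N := by
  have h1 : (IsScalarTower.toAlgHom ℚ M₁ N).fieldRange ⊔ (IsScalarTower.toAlgHom ℚ M₂ N).fieldRange
      = ⊤ := by
    have h2 := hg ((IsScalarTower.toAlgHom ℚ M₁ N).fieldRange ⊔
      (IsScalarTower.toAlgHom ℚ M₂ N).fieldRange).toSubfield
      (fun x => (le_sup_left : (IsScalarTower.toAlgHom ℚ M₁ N).fieldRange ≤ _) ⟨x, rfl⟩)
      (fun x => (le_sup_right : (IsScalarTower.toAlgHom ℚ M₂ N).fieldRange ≤ _) ⟨x, rfl⟩)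
    rw [eq_top_iff]
    intro x _
    have h3 : x ∈ ((IsScalarTower.toAlgHom ℚ M₁ N).fieldRange ⊔
      (IsScalarTower.toAlgHom ℚ M₂ N).fieldRange).toSubfield := by
      rw [h2]
      trivial
    exact h3
  haveI : Normal ℚ N := normal_gen h1
  exact {}

theorem deg_comp (hg : Gnd M₁ M₂ N) {n₁ n₂ : ℕ} (h₁ : Module.finrank ℚ M₁ = 2 ^ n₁)
    (h₂ : Module.finrank ℚ M₂ = 2 ^ n₂) : ∃ n : ℕ, Module.finrank ℚ N = 2 ^ n := by
  haveI := gal_comp hg
  let φ : Gal(N/ℚ) →* Gal(M₁/ℚ) × Gal(M₂/ℚ) :=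
    (AlgEquiv.restrictNormalHom M₁).prod (AlgEquiv.restrictNormalHom M₂)
  have hφ : Function.Injective φ := by
    rw [injective_iff_map_eq_one]
    intro σ hσ
    have a1 : AlgEquiv.restrictNormal σ M₁ = 1 := congrArg Prod.fst hσ
    have a2 : AlgEquiv.restrictNormal σ M₂ = 1 := congrArg Prod.snd hσ
    refine eq_one_of hg σ (fun y => ?_) (fun y => ?_)
    · rw [← AlgEquiv.restrictNormal_commutes σ M₁ y, a1]
      rfl
    · rw [← AlgEquiv.restrictNormal_commutes σ M₂ y, a2]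
      rfl
  have h3 := Subgroup.card_dvd_of_injective φ hφ
  rw [Nat.card_prod, IsGalois.card_aut_eq_finrank, IsGalois.card_aut_eq_finrank,
    IsGalois.card_aut_eq_finrank, h₁, h₂, ← pow_add] at h3
  obtain ⟨n, -, hn⟩ := (Nat.dvd_prime_pow Nat.prime_two).1 h3
  exact ⟨n, hn⟩

/-- The compositum is unramified where both fields are unramified. -/
theorem unr_comp (hg : Gnd M₁ M₂ N) {P : ℤ} (hP : IsPr P)
    (h₁ : ∀ w : HeightOneSpectrum (𝓞 M₁), Ov P w →
      w.valuation M₁ (P : M₁) = WithZero.exp (-1 : ℤ))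
    (h₂ : ∀ w : HeightOneSpectrum (𝓞 M₂), Ov P w →
      w.valuation M₂ (P : M₂) = WithZero.exp (-1 : ℤ))
    (w : HeightOneSpectrum (𝓞 N)) (hw : Ov P w) :
    w.valuation N (P : N) = WithZero.exp (-1 : ℤ) := by
  haveI := gal_comp hg
  refine unr_of_inertia w hP hw fun σ hσ => eq_one_of hg σ ?_ ?_
  · exact res_inertia w (h₁ _ ((ov_below (L := M₁) w P).2 hw)) σ hσ
  · exact res_inertia w (h₂ _ ((ov_below (L := M₂) w P).2 hw)) σ hσ

/-- The class is closed under composita. -/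
theorem InClass.comp {S : Finset ℤ} {A B : ℤ} (hSp : ∀ Q ∈ S, IsPr Q) (hg : Gnd M₁ M₂ N)
    (h₁ : InClass S A B M₁) (h₂ : InClass S A B M₂) : InClass S A B N := by
  haveI hN := gal_comp hg
  obtain ⟨n₁, e₁⟩ := h₁.degree
  obtain ⟨n₂, e₂⟩ := h₂.degree
  have hun : ∀ (M : Type) [Field M] [NumberField M], InClass S A B M → ∀ P : ℤ, IsPr P →
      (∃ z : ℤ, P ∣ z ^ 3 + A * z + B) → ∀ w : HeightOneSpectrum (𝓞 M), Ov P w →
      w.valuation M (P : M) = WithZero.exp (-1 : ℤ) := by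
    intro M _ _ hM P hP hz w hw
    refine val_exp w hw fun h2 => ?_
    obtain ⟨z, hz⟩ := hz
    exact hM.ram P hP ⟨w.asIdeal, w.isPrime, h2⟩ z hz
  have hsp : ∀ (M : Type) [Field M] [NumberField M], InClass S A B M → ∀ Q ∈ S,
      ∀ w : HeightOneSpectrum (𝓞 M), Ov Q w → w.valuation M (Q : M) = WithZero.exp (-1 : ℤ) ∧
      ∀ x : 𝓞 M, ∃ c : ℤ, x - (c : 𝓞 M) ∈ w.asIdeal := by
    intro M _ _ hM Q hQ w hw
    obtain ⟨h3, h4⟩ := hM.split Q hQ w.asIdeal w.isPrime hw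
    exact ⟨val_exp w hw h3, h4⟩
  refine ⟨hN, deg_comp hg e₁ e₂, fun 𝔭 h𝔭 h2 => ?_, fun Q hQ 𝔭 h𝔭 hQ𝔭 => ?_,
    fun P hP hex z hz => ?_⟩
  · have h2' : ((2 : ℤ) : 𝓞 N) ∈ 𝔭 ^ 2 := by exact_mod_cast h2
    obtain ⟨w, rfl, hw⟩ := hos h𝔭 two_ne_zero (Ideal.pow_le_self two_ne_zero h2')
    refine not_mem_sq w (P := 2) ?_ h2'
    refine unr_comp hg two_pr (fun w hw => ?_) (fun w hw => ?_) w hw
    · have := h₁.hur w hw
      exact_mod_cast this
    · have := h₂.hur w hw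
      exact_mod_cast this
  · obtain ⟨w, rfl, hw⟩ := hos h𝔭 (hSp Q hQ).2.ne_zero hQ𝔭
    have h3 := unr_comp hg (hSp Q hQ) (fun w hw => (hsp M₁ h₁ Q hQ w hw).1)
      (fun w hw => (hsp M₂ h₂ Q hQ w hw).1) w hw
    refine ⟨not_mem_sq w h3, ?_⟩
    haveI : Finite (𝓞 N ⧸ w.asIdeal) := fin_quot w
    obtain ⟨σ, hσ⟩ := IsArithFrobAt.exists_of_isInvariant ℤ Gal(N/ℚ) w.asIdeal
    have h4 : σ = 1 := by
      refine eq_one_of hg σ ?_ ?_
      · have h5 := hsp M₁ h₁ Q hQ _ ((ov_below (L := M₁) w Q).2 hw)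
        exact res_frob w (hSp Q hQ) hw h5.1 h5.2 σ hσ
      · have h5 := hsp M₂ h₂ Q hQ _ ((ov_below (L := M₂) w Q).2 hw)
        exact res_frob w (hSp Q hQ) hw h5.1 h5.2 σ hσ
    rw [h4] at hσ
    exact res_of_frob w hσ
  · obtain ⟨𝔭, h𝔭, h2⟩ := hex
    obtain ⟨w, rfl, hw⟩ := hos h𝔭 hP.2.ne_zero (Ideal.pow_le_self two_ne_zero h2)
    exact not_mem_sq w (unr_comp hg hP (hun M₁ h₁ P hP ⟨z, hz⟩) (hun M₂ h₂ P hP ⟨z, hz⟩) w hw) h2

end gal

end Pool.Agent.U693.UN
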