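import Pool.Agent.U693.UN.Comp

/-!
# Quadratic fields in the class
-/

set_option autoImplicit false
set_option linter.all false

open Polynomial IsDedekindDomain NumberField
open scoped Classical IntermediateField Pointwise

namespace Pool.Agent.U693.UN

open Pool.Agent.N922.PQ hiding Cnd cnd_sq cnd_mul cnd_sig base_sq odd_top ns_top cnd_top

section quad

variable {M : Type} [Field M] [NumberField M] {d : ℤ} {r : M}

theorem quad_eq_one (hgen : ∀ T : Subfield M, r ∈ T → T = ⊤) (σ : Gal(M/ℚ)) (h : σ r = r) :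
    σ = 1 := by
  have h3 := hgen (RingHom.eqLocusField (σ : M ≃+* M).toRingHom (RingHom.id M)) h
  ext z
  have h4 : z ∈ RingHom.eqLocusField (σ : M ≃+* M).toRingHom (RingHom.id M) := by
    rw [h3]
    trivial
  exact h4

theorem quad_pm (hr : r ^ 2 = (d : M)) (σ : Gal(M/ℚ)) : σ r = r ∨ σ r = - r := by
  have h1 : (σ r) ^ 2 = r ^ 2 := by
    rw [← map_pow, hr, map_intCast]
  exact sq_eq_sq_iff_eq_or_eq_neg.1 h1

theorem quad_gal (hd : d ≠ 0) (hr : r ^ 2 = (d : M)) (hgen : ∀ T : Subfield M, r ∈ T → T = ⊤) :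
    IsGalois ℚ M := by
  have hdM : (d : M) ≠ 0 := by exact_mod_cast hd
  have hr0 : r ≠ 0 := by
    rintro rfl
    apply hdM
    rw [← hr]
    simp
  have hf : (X ^ 2 - C (d : ℚ) : ℚ[X]).map (algebraMap ℚ M) = (X - C r) * (X - C (-r)) := by
    rw [Polynomial.map_sub, Polynomial.map_pow, map_X, map_C, map_intCast, ← hr]
    simp only [map_neg, map_pow]
    ring
  have hsep : (X ^ 2 - C (d : ℚ) : ℚ[X]).Separable := by
    rw [← Polynomial.separable_map (algebraMap ℚ M), hf]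
    refine (separable_X_sub_C).mul (separable_X_sub_C) ?_
    apply isCoprime_X_sub_C_of_isUnit_sub
    have : r - -r = 2 * r := by ring
    rw [this]
    exact (mul_ne_zero two_ne_zero hr0).isUnit
  have hspl : (X ^ 2 - C (d : ℚ) : ℚ[X]).IsSplittingField ℚ M := by
    refine ⟨?_, ?_⟩
    · rw [hf]
      exact (Splits.X_sub_C r).mul (Splits.X_sub_C (-r))
    · have h0 : (X ^ 2 - C (d : ℚ) : ℚ[X]) ≠ 0 := hsep.ne_zero
      have h1 : r ∈ (X ^ 2 - C (d : ℚ) : ℚ[X]).rootSet M := by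
        rw [mem_rootSet]
        refine ⟨h0, ?_⟩
        simp [hr]
      have h2 : ∀ x : M, x ∈ IntermediateField.adjoin ℚ ((X ^ 2 - C (d : ℚ) : ℚ[X]).rootSet M) := by
        intro x
        have h3 := hgen (IntermediateField.adjoin ℚ ((X ^ 2 - C (d : ℚ) : ℚ[X]).rootSet M)).toSubfield
          (IntermediateField.subset_adjoin ℚ _ h1)
        have h4 : x ∈ (IntermediateField.adjoin ℚ
            ((X ^ 2 - C (d : ℚ) : ℚ[X]).rootSet M)).toSubfield := by
          rw [h3]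
          trivial
        exact h4
      have h5 := IntermediateField.adjoin_toSubalgebra_of_isAlgebraic (F := ℚ)
        (S := (X ^ 2 - C (d : ℚ) : ℚ[X]).rootSet M)
        (fun x _ => Algebra.IsAlgebraic.isAlgebraic x)
      rw [← h5, eq_top_iff]
      intro x _
      exact h2 x
  exact IsGalois.of_separable_splitting_field hsep

theorem quad_deg [IsGalois ℚ M] (hr : r ^ 2 = (d : M)) (hgen : ∀ T : Subfield M, r ∈ T → T = ⊤) :
    ∃ n : ℕ, Module.finrank ℚ M = 2 ^ n := by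
  have h1 : IsPGroup 2 Gal(M/ℚ) := by
    intro σ
    refine ⟨1, ?_⟩
    apply quad_eq_one hgen
    rw [pow_one, pow_two]
    change σ (σ r) = r
    rcases quad_pm hr σ with h | h
    · rw [h, h]
    · rw [h, map_neg, h, neg_neg]
  haveI : Fact (Nat.Prime 2) := ⟨Nat.prime_two⟩
  obtain ⟨n, hn⟩ := IsPGroup.iff_card.1 h1
  exact ⟨n, by rw [← IsGalois.card_aut_eq_finrank, hn]⟩

/-- The element `(1 + r) / 2` is an integer. -/
theorem quad_int (hd4 : d % 4 = 1) (hr : r ^ 2 = (d : M)) : IsIntegral ℤ ((1 + r) / 2) := by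
  obtain ⟨k, hk⟩ : ∃ k : ℤ, d = 4 * k + 1 := ⟨d / 4, by omega⟩
  refine ⟨X ^ 2 - X - C k, by monicity!, ?_⟩
  simp only [eval₂_sub, eval₂_pow, eval₂_X, eval₂_C]
  have h1 : r ^ 2 = 4 * (k : M) + 1 := by rw [hr, hk]; push_cast; ring
  rw [eq_intCast]
  field_simp
  linear_combination h1

theorem r_int (hr : r ^ 2 = (d : M)) : IsIntegral ℤ r := by
  refine ⟨X ^ 2 - C d, by monicity!, ?_⟩
  simp only [eval₂_sub, eval₂_pow, eval₂_X, eval₂_C]
  rw [hr, eq_intCast, sub_self]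

theorem quad_unr [IsGalois ℚ M] (hd4 : d % 4 = 1) (hr : r ^ 2 = (d : M))
    (hgen : ∀ T : Subfield M, r ∈ T → T = ⊤) {P : ℤ} (hP : IsPr P) (hPd : ¬ P ∣ d)
    (w : HeightOneSpectrum (𝓞 M)) (hw : Ov P w) :
    w.valuation M (P : M) = WithZero.exp (-1 : ℤ) := by
  refine unr_of_inertia w hP hw fun σ hσ => ?_
  apply quad_eq_one hgen
  rcases quad_pm hr σ with h | h
  · exact h
  · exfalso
    obtain ⟨ρ, hρ⟩ : ∃ ρ : 𝓞 M, algebraMap (𝓞 M) M ρ = r := ⟨⟨r, r_int hr⟩, rfl⟩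
    obtain ⟨ι, hι⟩ : ∃ ι : 𝓞 M, algebraMap (𝓞 M) M ι = (1 + r) / 2 :=
      ⟨⟨(1 + r) / 2, quad_int hd4 hr⟩, rfl⟩
    have h1 := hσ ι
    have h2 : σ • ι - ι = - ρ := by
      apply FaithfulSMul.algebraMap_injective (𝓞 M) M
      rw [map_neg, hρ, map_sub]
      change σ (algebraMap (𝓞 M) M ι) - algebraMap (𝓞 M) M ι = - r
      rw [hι, map_div₀, map_add, map_one, h, map_ofNat]
      ring
    rw [h2] at h1
    have h3 : ρ ^ 2 = (d : 𝓞 M) := by
      apply FaithfulSMul.algebraMap_injective (𝓞 M) M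
      rw [map_pow, hρ, hr]
      exact (map_intCast (algebraMap (𝓞 M) M) d).symm
    have h4 : (d : 𝓞 M) ∈ w.asIdeal := by
      rw [← h3, pow_two]
      exact Ideal.mul_mem_left _ _ (neg_mem_iff.1 h1)
    exact one_mem_of ((hP.2.irreducible.coprime_iff_not_dvd).2 hPd) hw h4

/-- The quadratic field `ℚ(√d)` is in the class. -/
theorem quad_class (hd4 : d % 4 = 1) (hr : r ^ 2 = (d : M))
    (hgen : ∀ T : Subfield M, r ∈ T → T = ⊤) {S : Finset ℤ} {A B : ℤ}
    (hS : ∀ Q ∈ S, IsPr Q ∧ Q % 8 = 1) (hSd : ∀ Q ∈ S, ¬ Q ∣ d ∧ ∃ c : ℤ, Q ∣ c ^ 2 - d)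
    (hnz : ∀ P : ℤ, IsPr P → P ∣ d → ∀ z : ℤ, ¬ P ∣ z ^ 3 + A * z + B) : InClass S A B M := by
  have hd0 : d ≠ 0 := by
    rintro rfl
    norm_num at hd4
  haveI hgal := quad_gal hd0 hr hgen
  refine ⟨hgal, quad_deg hr hgen, fun 𝔭 h𝔭 h2 => ?_, fun Q hQ 𝔭 h𝔭 hQ𝔭 => ?_,
    fun P hP hex => ?_⟩
  · have h2' : ((2 : ℤ) : 𝓞 M) ∈ 𝔭 ^ 2 := by exact_mod_cast h2
    obtain ⟨w, rfl, hw⟩ := hos h𝔭 two_ne_zero (Ideal.pow_le_self two_ne_zero h2')
    exact not_mem_sq w (P := 2) (quad_unr hd4 hr hgen two_pr (by omega) w hw) h2'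
  · obtain ⟨w, rfl, hw⟩ := hos h𝔭 (hS Q hQ).1.2.ne_zero hQ𝔭
    obtain ⟨hQd, c, hc⟩ := hSd Q hQ
    refine ⟨not_mem_sq w (quad_unr hd4 hr hgen (hS Q hQ).1 hQd w hw), ?_⟩
    haveI : Finite (𝓞 M ⧸ w.asIdeal) := fin_quot w
    obtain ⟨σ, hσ⟩ := IsArithFrobAt.exists_of_isInvariant ℤ Gal(M/ℚ) w.asIdeal
    have h4 : σ = 1 := by
      apply quad_eq_one hgen
      rcases quad_pm hr σ with h | h
      · exact h
      · exfalso
        obtain ⟨ρ, hρ⟩ : ∃ ρ : 𝓞 M, algebraMap (𝓞 M) M ρ = r := ⟨⟨r, r_int hr⟩, rfl⟩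
        have h3 : ρ ^ 2 = (d : 𝓞 M) := by
          apply FaithfulSMul.algebraMap_injective (𝓞 M) M
          rw [map_pow, hρ, hr]
          exact (map_intCast (algebraMap (𝓞 M) M) d).symm
        have hσρ : σ • ρ = - ρ := by
          apply FaithfulSMul.algebraMap_injective (𝓞 M) M
          rw [map_neg, hρ]
          change σ (algebraMap (𝓞 M) M ρ) = - r
          rw [hρ]
          exact h
        -- `ρ` is congruent to an integer
        obtain ⟨e, he⟩ : ∃ e : ℤ, ρ - (e : 𝓞 M) ∈ w.asIdeal := by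
          have h5 : (ρ - (c : 𝓞 M)) * (ρ + (c : 𝓞 M)) ∈ w.asIdeal := by
            obtain ⟨k, hk⟩ := hc
            have h6 : (ρ - (c : 𝓞 M)) * (ρ + (c : 𝓞 M)) = - ((Q : 𝓞 M) * (k : 𝓞 M)) := by
              have h7 : ((c ^ 2 - d : ℤ) : 𝓞 M) = ((Q * k : ℤ) : 𝓞 M) := by rw [hk]
              push_cast at h7
              linear_combination h3 - h7
            rw [h6]
            exact neg_mem (Ideal.mul_mem_right _ _ hw)
          rcases w.isPrime.mem_or_mem h5 with h6 | h6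
          · exact ⟨c, h6⟩
          · exact ⟨-c, by push_cast; rw [sub_neg_eq_add]; exact h6⟩
        have a1 : σ • ρ - ρ ^ Nat.card (ℤ ⧸ w.asIdeal.under ℤ) ∈ w.asIdeal := hσ ρ
        have a2 : ρ ^ Nat.card (ℤ ⧸ w.asIdeal.under ℤ) -
            (e : 𝓞 M) ^ Nat.card (ℤ ⧸ w.asIdeal.under ℤ) ∈ w.asIdeal := by
          obtain ⟨k, hk⟩ := sub_dvd_pow_sub_pow ρ (e : 𝓞 M) (Nat.card (ℤ ⧸ w.asIdeal.under ℤ))
          rw [hk]
          exact Ideal.mul_mem_right _ _ he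
        have a3 := fermat w (hS Q hQ).1 hw e
        have a4 : - (2 * ρ) ∈ w.asIdeal := by
          have e1 : - (2 * ρ) = (σ • ρ - ρ ^ Nat.card (ℤ ⧸ w.asIdeal.under ℤ)) +
              (ρ ^ Nat.card (ℤ ⧸ w.asIdeal.under ℤ) -
                (e : 𝓞 M) ^ Nat.card (ℤ ⧸ w.asIdeal.under ℤ)) +
              ((e : 𝓞 M) ^ Nat.card (ℤ ⧸ w.asIdeal.under ℤ) - (e : 𝓞 M)) - (ρ - (e : 𝓞 M)) := by
            rw [hσρ]
            ring
          rw [e1]
          exact sub_mem (add_mem (add_mem a1 a2) a3) he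
        have a5 : ((4 * d : ℤ) : 𝓞 M) ∈ w.asIdeal := by
          have e2 : ((4 * d : ℤ) : 𝓞 M) = - (2 * ρ) * (- (2 * ρ)) := by
            push_cast
            rw [← h3]
            ring
          rw [e2]
          exact Ideal.mul_mem_left _ _ a4
        have a6 : ¬ Q ∣ 4 * d := by
          intro h7
          rcases (hS Q hQ).1.2.dvd_or_dvd h7 with h8 | h8
          · have h9 : Q ∣ 2 := by
              have : (4 : ℤ) = 2 * 2 := by norm_num
              rw [this] at h8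
              rcases (hS Q hQ).1.2.dvd_or_dvd h8 with h | h <;> exact h
            exact not_dvd_two (hS Q hQ).2 (hS Q hQ).1.1 (hS Q hQ).1.2 h9
          · exact hQd h8
        exact one_mem_of (((hS Q hQ).1.2.irreducible.coprime_iff_not_dvd).2 a6) hw a5
    rw [h4] at hσ
    exact res_of_frob w hσ
  · obtain ⟨𝔭, h𝔭, h2⟩ := hex
    obtain ⟨w, rfl, hw⟩ := hos h𝔭 hP.2.ne_zero (Ideal.pow_le_self two_ne_zero h2)
    apply hnz P hP
    by_contra hPd
    exact not_mem_sq w (quad_unr hd4 hr hgen hP hPd w hw) h2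

end quad

end Pool.Agent.U693.UN
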