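import Pool.Agent.U693.UN.Cnt
import Pool.Agent.U693.UN.Base
import Pool.Agent.U693.UN.Quad
import Pool.Agent.U693.UN.Che
import Pool.Agent.N922.PQ.Final2

/-!
# The theorem
-/

set_option autoImplicit false
set_option linter.all false

open Polynomial IsDedekindDomain WeierstrassCurve WeierstrassCurve.Affine NumberField
open Pool.Agent.TH115.GD
open scoped Classical IntermediateField

namespace Pool.Agent.U693.UN

open Pool.Agent.N922.PQ hiding Cnd cnd_sq cnd_mul cnd_sig base_sq odd_top ns_top cnd_top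

/-- A positive proportion of all elliptic curves. -/
theorem finalU (K : Type) [Field K] [NumberField K] [IsGalois ℚ K] {n : ℕ}
    (hn : Module.finrank ℚ K = 2 ^ n)
    (h2 : ∀ 𝔭 : Ideal (𝓞 K), 𝔭.IsPrime → (2 : 𝓞 K) ∉ 𝔭 ^ 2) :
    ∃ S : Finset ℤ, (∀ Q ∈ S, IsPr Q ∧ Q % 8 = 1) ∧
    ∃ c : ℝ, 0 < c ∧ ∃ H₀ : ℕ, ∀ H ≥ H₀, {p : ℤ × ℤ | Crv H p.1 p.2}.Finite ∧
    c * ({p : ℤ × ℤ | Crv H p.1 p.2}.ncard : ℝ) ≤
      ({p : ℤ × ℤ | Crv H p.1 p.2 ∧ (InClass S p.1 p.2 K ∧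
        (∀ z : ℤ, ¬ (2 : ℤ) ∣ z ^ 3 + p.1 * z + p.2) ∧
        ∀ (M : Type) [Field M] [NumberField M], InClass S p.1 p.2 M →
          GoodV (M := M) (𝓞 M) p)}.ncard : ℝ) := by
  obtain ⟨γ, g, δ, hG, hdeg⟩ := Pool.Agent.N40.PQ.gen K
  -- the prime divisors of `δ`
  obtain ⟨T₀, hT₀, hδ₀⟩ : ∃ T : Finset ℤ, (∀ P ∈ T, IsPr P) ∧
      ∀ P : ℤ, IsPr P → P ∣ δ → P ∈ T := by
    have hf : {P : ℤ | IsPr P ∧ P ∣ δ}.Finite := by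
      refine (Set.finite_Icc (-|δ|) |δ|).subset ?_
      rintro P ⟨-, h⟩
      have h3 : |P| ≤ |δ| := Int.le_of_dvd (abs_pos.2 hG.ne) ((abs_dvd_abs P δ).2 h)
      exact abs_le.1 h3
    refine ⟨hf.toFinset, fun P hP => ?_, fun P h1 h2 => ?_⟩
    · exact (hf.mem_toFinset.1 hP).1
    · exact hf.mem_toFinset.2 ⟨h1, h2⟩
  obtain ⟨T, A, B, hTT, hT⟩ := Pool.Agent.N954.PQ.tch T₀ hT₀
  have hδ : ∀ P : ℤ, IsPr P → P ∣ δ → P ∈ T := fun P h1 h2 => hTT (hδ₀ P h1 h2)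
  obtain ⟨S, s, hS, hdis, hsp, P, X₀, c, hc, hP, h⟩ := mainU parts2 lb Pool.Agent.N615.PV.fam2 bad
    N650.PM.gfr Pool.Agent.N273.PQ.finm Pool.Agent.N137.PV.tor Pool.Agent.N707.PQ.crv hT
    (fun Q => SplitMod Q g) (Pool.Agent.N40.PQ.spl K γ g δ hG hdeg T)
  refine ⟨S, fun Q hQ => ⟨(hS Q hQ).1, (hS Q hQ).2.1⟩, ?_⟩
  refine Pool.Agent.N607.PQ.cnt _ P X₀ c hc hP fun X hX Hh hHh => (h X hX Hh hHh).trans ?_
  have hsub : {p : ℤ × ℤ | Crv Hh p.1 p.2 ∧ GoodU S T p} ⊆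
      {p : ℤ × ℤ | Crv Hh p.1 p.2 ∧ (InClass S p.1 p.2 K ∧
        (∀ z : ℤ, ¬ (2 : ℤ) ∣ z ^ 3 + p.1 * z + p.2) ∧
        ∀ (M : Type) [Field M] [NumberField M], InClass S p.1 p.2 M →
          GoodV (M := M) (𝓞 M) p)} := by
    rintro p ⟨hp, h3, h4⟩
    exact ⟨hp, base_class hn h2 hG hS hdis hδ hsp h3, h3 2 hT.1, h4⟩
  have h5 := Set.ncard_le_ncard hsub ((crv_fin Hh).subset fun p hp => hp.1)
  exact_mod_cast h5

end Pool.Agent.U693.UN
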