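import Mathlib

/-!
# Inertia groups and valuations

Trivial inertia group and unramified primes, for number fields.
-/

set_option autoImplicit false
set_option linter.all false

open IsDedekindDomain NumberField
open scoped Pointwise

namespace Pool.Agent.U693.UN

section fin

/-- The residue field of a nonzero prime of a ring with finite quotients is perfect. -/
theorem perf {A : Type} [CommRing A] [IsDomain A] (p : Ideal A) [hp : p.IsMaximal]
    (hf : Finite (A ⧸ p)) : PerfectField p.ResidueField := by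
  have hb : Function.Bijective (algebraMap (A ⧸ p) p.ResidueField) :=
    Ideal.bijective_algebraMap_quotient_residueField p
  have : Finite p.ResidueField := Finite.of_surjective _ hb.2
  infer_instance

end fin

section one

variable {L Ω : Type} [Field L] [NumberField L] [Field Ω] [NumberField Ω] [Algebra L Ω]

/-- The prime below. -/
noncomputable def below (𝔓 : HeightOneSpectrum (𝓞 Ω)) : HeightOneSpectrum (𝓞 L) :=
  ⟨𝔓.asIdeal.under (𝓞 L), inferInstance, fun h => 𝔓.ne_bot (Ideal.eq_bot_of_comap_eq_bot h)⟩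

theorem below_lies (𝔓 : HeightOneSpectrum (𝓞 Ω)) :
    𝔓.asIdeal.LiesOver (below (L := L) 𝔓).asIdeal := ⟨rfl⟩

theorem fin_quot (𝔓 : HeightOneSpectrum (𝓞 Ω)) : Finite (𝓞 Ω ⧸ 𝔓.asIdeal) :=
  Ideal.finiteQuotientOfFreeOfNeBot _ 𝔓.ne_bot

/-- A prime with trivial inertia group is unramified. -/
theorem val_of_inertia [IsGalois L Ω] (𝔓 : HeightOneSpectrum (𝓞 Ω))
    (h : ∀ σ : Gal(Ω/L), (∀ x : 𝓞 Ω, σ • x - x ∈ 𝔓.asIdeal) → σ = 1) (x : L) :
    𝔓.valuation Ω (algebraMap L Ω x) = (below (L := L) 𝔓).valuation L x := by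
  have hl : 𝔓.asIdeal.LiesOver (below (L := L) 𝔓).asIdeal := below_lies 𝔓
  have hmax : (below (L := L) 𝔓).asIdeal.IsMaximal := (below (L := L) 𝔓).isMaximal
  have hpf : PerfectField (below (L := L) 𝔓).asIdeal.ResidueField :=
    perf _ (fin_quot (below (L := L) 𝔓))
  have hI : Nat.card (𝔓.asIdeal.inertia Gal(Ω/L)) = 1 := by
    rw [Subgroup.card_eq_one, Subgroup.eq_bot_iff_forall]
    intro σ hσ
    exact h σ hσ
  have h1 := Ideal.card_inertia_eq_ramificationIdxIn (G := Gal(Ω/L)) (below (L := L) 𝔓).asIdeal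
    𝔓.asIdeal
  rw [hI, Ideal.ramificationIdxIn_eq_ramificationIdx (below (L := L) 𝔓).asIdeal 𝔓.asIdeal
    Gal(Ω/L), ← Ideal.ramificationIdx'_eq_ramificationIdx' (below (L := L) 𝔓).asIdeal
    𝔓.asIdeal (fun h0 => (below (L := L) 𝔓).ne_bot
      ((Ideal.map_eq_bot_iff_of_injective (FaithfulSMul.algebraMap_injective _ _)).1 h0))] at h1
  have h2 := HeightOneSpectrum.valuation_liesOver Ω (below (L := L) 𝔓) 𝔓 x
  rw [← h1, pow_one] at h2
  exact h2.symm

end one

section two

variable {M : Type} [Field M] [NumberField M]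

theorem exp_pow {a : WithZero (Multiplicative ℤ)} {e : ℕ} (h : a ^ e = WithZero.exp (-1 : ℤ)) :
    e = 1 := by
  have ha : a ≠ 0 := by
    rintro rfl
    rcases Nat.eq_zero_or_pos e with rfl | he
    · rw [pow_zero] at h
      have : WithZero.exp (0 : ℤ) = WithZero.exp (-1 : ℤ) := by rw [← h]; rfl
      exact absurd (WithZero.exp_injective this) (by norm_num)
    · rw [zero_pow he.ne'] at h
      exact WithZero.exp_ne_zero h.symm
  obtain ⟨m, rfl⟩ : ∃ m : ℤ, a = WithZero.exp m := ⟨WithZero.log a, (WithZero.exp_log ha).symm⟩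
  rw [← WithZero.exp_nsmul] at h
  have h1 := WithZero.exp_injective h
  rw [nsmul_eq_mul] at h1
  have h2 : (e : ℤ) ∣ 1 := ⟨-m, by linarith⟩
  have h3 : e ∣ 1 := by exact_mod_cast h2
  exact Nat.dvd_one.1 h3

/-- The prime of `ℤ` below. -/
noncomputable def belowZ (w : HeightOneSpectrum (𝓞 M)) : HeightOneSpectrum ℤ :=
  ⟨w.asIdeal.under ℤ, inferInstance, fun h => w.ne_bot (Ideal.eq_bot_of_comap_eq_bot h)⟩

theorem belowZ_lies (w : HeightOneSpectrum (𝓞 M)) :
    w.asIdeal.LiesOver (belowZ w).asIdeal := ⟨rfl⟩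

theorem fin_quotZ (v : HeightOneSpectrum ℤ) : Finite (ℤ ⧸ v.asIdeal) :=
  Ideal.finiteQuotientOfFreeOfNeBot _ v.ne_bot

/-- The inertia group of an unramified prime is trivial. -/
theorem inertia_of_val [IsGalois ℚ M] (w : HeightOneSpectrum (𝓞 M)) {P : ℤ}
    (hw : w.valuation M (P : M) = WithZero.exp (-1 : ℤ)) (σ : Gal(M/ℚ))
    (hσ : ∀ x : 𝓞 M, σ • x - x ∈ w.asIdeal) : σ = 1 := by
  have hl : w.asIdeal.LiesOver (belowZ w).asIdeal := belowZ_lies w
  have hmax : (belowZ w).asIdeal.IsMaximal := (belowZ w).isMaximal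
  have hpf : PerfectField (belowZ w).asIdeal.ResidueField := perf _ (fin_quotZ (belowZ w))
  have h1 := Ideal.card_inertia_eq_ramificationIdxIn (G := Gal(M/ℚ)) (belowZ w).asIdeal w.asIdeal
  rw [Ideal.ramificationIdxIn_eq_ramificationIdx (belowZ w).asIdeal w.asIdeal
    Gal(M/ℚ), ← Ideal.ramificationIdx'_eq_ramificationIdx' (belowZ w).asIdeal
    w.asIdeal (fun h0 => (belowZ w).ne_bot
      ((Ideal.map_eq_bot_iff_of_injective (FaithfulSMul.algebraMap_injective _ _)).1 h0))] at h1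
  have h2 := HeightOneSpectrum.valuation_liesOver M (belowZ w) w (P : ℚ)
  rw [map_intCast (algebraMap ℚ M), hw] at h2
  rw [exp_pow h2] at h1
  have h3 := (Subgroup.card_eq_one (H := w.asIdeal.inertia Gal(M/ℚ))).1 h1
  have h4 : σ ∈ w.asIdeal.inertia Gal(M/ℚ) := hσ
  rw [h3] at h4
  exact Subgroup.mem_bot.1 h4

end two

end Pool.Agent.U693.UN
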