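import Pool.Agent.U693.UN.Top
import Pool.Agent.N922.PQ.Big6

/-!
# The 2-Selmer groups over all the extensions

Adapted from `Pool.Agent.N922.PQ.Big6` (helper922): one subset `J` for all the fields `M`.
-/

set_option autoImplicit false
set_option linter.all false

open Polynomial IsDedekindDomain WeierstrassCurve WeierstrassCurve.Affine NumberField
open Pool.Agent.TH115.GD
open scoped Classical IntermediateField

namespace Pool.Agent.U693.UN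

open Pool.Agent.N922.PQ hiding Cnd cnd_sq cnd_mul cnd_sig base_sq odd_top ns_top cnd_top
open Pool.Agent.N874.PP (Tup chA chB gq tau Two Ev Sq1 U0 sW IsBeta Rt)
open Pool.Agent.N874.PM (PLoc Lies SelR ShaR)

section below

variable {L Ω : Type} [Field L] [NumberField L] [Field Ω] [NumberField Ω] [Algebra L Ω]

/-- There is a prime above. -/
theorem exists_above (𝔭 : HeightOneSpectrum (𝓞 L)) :
    ∃ 𝔓 : HeightOneSpectrum (𝓞 Ω), below (L := L) 𝔓 = 𝔭 := by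
  haveI := 𝔭.isPrime
  obtain ⟨Q, -, hQp, hQ⟩ := Ideal.exists_ideal_over_prime_of_isIntegral (S := 𝓞 Ω) 𝔭.asIdeal ⊥
    (by
      intro x hx
      have h1 : algebraMap (𝓞 L) (𝓞 Ω) x = 0 := by simpa using hx
      have h2 : x = 0 := FaithfulSMul.algebraMap_injective (𝓞 L) (𝓞 Ω) (by rw [h1, map_zero])
      rw [h2]
      exact zero_mem _)
  have hQ0 : Q ≠ ⊥ := by
    rintro rfl
    apply 𝔭.ne_bot
    rw [← hQ]
    exact (RingHom.injective_iff_ker_eq_bot _).1 (FaithfulSMul.algebraMap_injective (𝓞 L) (𝓞 Ω))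
  refine ⟨⟨Q, hQp, hQ0⟩, ?_⟩
  apply HeightOneSpectrum.ext
  exact hQ

end below

section abs

variable {L M Ω : Type} [Field L] [NumberField L] [Field M] [NumberField M]
  [Field Ω] [NumberField Ω] [Algebra L Ω] [Algebra M Ω] [IsGalois ℚ M]

/-- The zero `θ` is integral. -/
theorem val_theta {a b : ℤ} {θ : L} (hc : IsCub a b θ) (𝔓 : HeightOneSpectrum (𝓞 Ω)) :
    𝔓.valuation Ω (algebraMap L Ω θ) ≤ 1 := by
  have h0 : (algebraMap L Ω θ) ^ 3 + (a : Ω) * algebraMap L Ω θ + (b : Ω) = 0 := by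
    have h1 := congrArg (algebraMap L Ω) hc.root
    rw [map_zero, map_add, map_add, map_mul, map_pow, map_intCast, map_intCast] at h1
    exact h1
  have hint : IsIntegral ℤ (algebraMap L Ω θ) := by
    refine ⟨X ^ 3 + C a * X + C b, by monicity!, ?_⟩
    simp only [eval₂_add, eval₂_mul, eval₂_pow, eval₂_X, eval₂_C]
    simpa using h0
  have h2 := 𝔓.valuation_le_one (K := Ω) (⟨algebraMap L Ω θ, hint⟩ : 𝓞 Ω)
  exact h2

theorem selR_abs (H : Parts2) {a b : ℤ} {θ : L} {X' : ℕ}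
    {S T₀ J : Finset ℤ} {T : Set ℤ} {s A B : ℤ → ℤ} (hc : IsCub a b θ) (hS : GoodS S s)
    (hF : Fam X' S s T₀ A B a b) (h4 : (4 : ℤ) ∣ a - b) (hJ : J ⊆ S)
    (hsel : ∀ α : L, α ≠ 0 → IsSquare (Algebra.norm ℚ α) → Loc2 a b θ α →
      (∀ 𝔓 : HeightOneSpectrum (𝓞 L), (∀ Q ∈ J, ¬ Ov Q 𝔓) → Ev 𝔓 α) →
      (∀ Q ∈ J, ∀ 𝔓 : HeightOneSpectrum (𝓞 L), Ov Q 𝔓 → 𝔓.valuation L θ = 1 →
        U0 𝔓 ((Q : L) * θ) α) →
      (∀ Q ∈ J, ∀ 𝔓 : HeightOneSpectrum (𝓞 L), Ov Q 𝔓 → 𝔓.valuation L θ < 1 → Ev 𝔓 α) →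
      IsSquare α)
    (hT : TGood T S a b) (hspl : Spl M T S)
    {n : ℕ} (hM : Module.finrank ℚ M = 2 ^ n) (hΩ : Module.finrank M Ω = 3)
    (htop : M⟮algebraMap L Ω θ⟯ = ⊤) (ha : Odd a) (hb : Odd b)
    (hur : ∀ w : HeightOneSpectrum (𝓞 M), Ov 2 w → w.valuation M 2 = WithZero.exp (-1 : ℤ)) :
    SelR (𝓞 M) (sW (((a * (∏ Q ∈ J, Q) ^ 2 : ℤ)) : M) (((b * (∏ Q ∈ J, Q) ^ 3 : ℤ)) : M)) := by
  have h6M : (6 : M) ≠ 0 := by norm_num
  have h2K : (2 : ℚ) ≠ 0 := by norm_num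
  have hnr : ∀ w : HeightOneSpectrum (𝓞 M), Ov 2 w → ∀ t : w.adicCompletion M,
      t ^ 3 + (a : w.adicCompletion M) * t + (b : w.adicCompletion M) ≠ 0 :=
    fun w hw => H.nr M (𝓞 M) n hM w hw a b ha hb
  have hD1 : 0 < (∏ Q ∈ J, Q) := Finset.prod_pos fun Q hQ => (hS Q (hJ hQ)).1.1
  have hD0 : (∏ Q ∈ J, Q) ≠ 0 := hD1.ne'
  have hD8 : (∏ Q ∈ J, Q) % 8 = 1 := prod_mod8 fun Q hQ => (hS Q (hJ hQ)).2.1
  intro f hf h2f hloc
  obtain ⟨w₀, hw₀⟩ := exists_over (𝓞 M)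
  have hirrD := irr_tw' (F := M) (a := a * (∏ Q ∈ J, Q) ^ 2) (b := b * (∏ Q ∈ J, Q) ^ 3)
    (fun t ht => by
      apply no_root_tw' (hnr w₀ hw₀) hD0 (algebraMap M _ t)
      have h1 := congrArg (algebraMap M (w₀.adicCompletion M)) ht
      rw [map_zero, map_add, map_add, map_mul, map_pow, map_intCast, map_intCast] at h1
      exact h1)
  have hdisc : 4 * (((a * (∏ Q ∈ J, Q) ^ 2 : ℤ)) : M) ^ 3 +
      27 * (((b * (∏ Q ∈ J, Q) ^ 3 : ℤ)) : M) ^ 2 ≠ 0 := by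
    have e : 4 * (((a * (∏ Q ∈ J, Q) ^ 2 : ℤ)) : M) ^ 3 +
      27 * (((b * (∏ Q ∈ J, Q) ^ 3 : ℤ)) : M) ^ 2 =
        (((∏ Q ∈ J, Q) ^ 6 * dsc a b : ℤ) : M) := by
      simp only [dsc, Int.cast_mul, Int.cast_add, Int.cast_pow, Int.cast_ofNat]
      ring
    rw [e, Int.cast_ne_zero]
    exact mul_ne_zero (pow_ne_zero _ hD0) hF.sq.ne_zero
  have hroot : (algebraMap L Ω θ) ^ 3 + (a : Ω) * algebraMap L Ω θ + (b : Ω) = 0 := by
    have h1 := congrArg (algebraMap L Ω) hc.root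
    rw [map_zero, map_add, map_add, map_mul, map_pow, map_intCast, map_intCast] at h1
    exact h1
  have hmin : minpoly M (algebraMap L Ω θ) = ff M a b := by
    haveI : FiniteDimensional M Ω := FiniteDimensional.of_finrank_pos (by rw [hΩ]; norm_num)
    have hint : IsIntegral M (algebraMap L Ω θ) := Algebra.IsIntegral.isIntegral _
    have hd : minpoly M (algebraMap L Ω θ) ∣ ff M a b := by
      apply minpoly.dvd
      simp only [ff, map_add, map_mul, map_pow, aeval_X, aeval_C, map_intCast]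
      exact hroot
    have hdeg : (minpoly M (algebraMap L Ω θ)).natDegree = 3 := by
      rw [(Field.primitive_element_iff_minpoly_natDegree_eq M _).1 htop, hΩ]
    exact (Polynomial.eq_of_monic_of_dvd_of_natDegree_le (minpoly.monic hint) (ff_monic M a b) hd
      (by rw [hdeg, ff_deg])).symm
  obtain ⟨β, hβ⟩ := H.p.gb M _ _ h6M hdisc hirrD f hf h2f
  obtain ⟨h, hh, hn⟩ := H.p.gn M _ _ h6M hdisc hirrD f hf h2f β hβ
  have hRt : Rt (((a * (∏ Q ∈ J, Q) ^ 2 : ℤ)) : M)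
      (((b * (∏ Q ∈ J, Q) ^ 3 : ℤ)) : M)
      (((∏ Q ∈ J, Q : ℤ) : Ω) * algebraMap L Ω θ) := by
    unfold Rt
    rw [map_intCast, map_intCast]
    simp only [Int.cast_mul, Int.cast_pow]
    linear_combination ((∏ Q ∈ J, Q : ℤ) : Ω) ^ 3 * hroot
  have hn2 := hn Ω _ hRt hΩ
  have hcnd := cnd_top (L := L) (Ω := Ω) H.p.exq H.p.lie H.p.loc1 H.p.loc2 hc hS hF hM hΩ hT hspl
    hJ (h := h)
    (fun w hw => H.p.glr M (𝓞 M) _ _ h6M hdisc f hf h2f β h hβ hh w (val_two hw) (hloc w)) hn2.1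
  have hc2 := c2w_sel (𝓞 M) H.p.glr2 H.sqd H.twg hD0 hD8 hnr hmin hdisc f hf h2f β h hβ hh hloc
  obtain ⟨c1, c2, c3⟩ := H.c2w L M Ω (𝓞 M) a b θ hF.sq.ne_zero hnr hc hΩ htop
  have hsq := H.p.tow n ℚ L M Ω h2K hM hc.rank hΩ
    (fun x => Cnd (𝓞 Ω) J T (algebraMap L Ω θ) x ∧ C2w M (𝓞 M) a b (algebraMap L Ω θ) x)
    (fun x hx => ⟨cnd_sq hx, c1 x⟩)
    (fun x y hx hy h h' => ⟨cnd_mul H.p.cls (fun Q hQ => ⟨(hS Q (hJ hQ)).1.2,
        not_dvd_two (hS Q (hJ hQ)).2.1 (hS Q (hJ hQ)).1.1 (hS Q (hJ hQ)).1.2⟩)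
      (fun Q hQ 𝔓 h1 h2 => odd_top (M := M) H.p.exq hc hF.sq hM hΩ (hS Q (hJ hQ)).1.2
        (hF.rb Q (hJ hQ)) (fam_ns hS hF (hJ hQ)) (fun w hw => (hspl.dg Q (hJ hQ) w hw).1)
        𝔓 h1 h2) hx hy h.1 h'.1, c2 x y h.2 h'.2⟩)
    (fun σ x h => ⟨cnd_sig H.p.sig rfl σ h.1, c3 σ x h.2⟩)
    (fun x hx hC hN => base_sq (𝓞 L) (𝓞 Ω) hsel
      (fun 𝔭 h𝔭 => by
        obtain ⟨𝔓, h𝔓⟩ := exists_above (Ω := Ω) 𝔭
        refine ⟨𝔓, fun y => ?_⟩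
        obtain ⟨P, hP1, hP2⟩ := exists_below 𝔓
        have hP3 : Ov P 𝔭 := by
          rw [← h𝔓]
          exact (ov_below (L := L) 𝔓 P).2 hP2
        rw [← h𝔓]
        exact ur_top (M := M) hM hc.rank hΩ 𝔓 (hspl.ur _ P hP1 ((ov_below (L := M) 𝔓 P).2 hP2)
          fun hPT => h𝔭 P hPT hP3) y)
      (fun Q hQ 𝔓 h1 => dens3 (M := M) htop 𝔓 (val_theta hc 𝔓)
        (dens1 _ (hspl.dg Q (hJ hQ) _ ((ov_below (L := M) 𝔓 Q).2 h1)).1
          (hspl.dg Q (hJ hQ) _ ((ov_below (L := M) 𝔓 Q).2 h1)).2))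
      (fun P hP => H.p.p3 L (𝓞 L) a b θ hc hF.sq P (hT.pr P hP).2 (hT.nz P hP))
      (fun Q hQ 𝔓 h => not_T (O := 𝓞 L) hS hT (hJ hQ) h) hx hC.1
      (base_two (𝓞 M) H.ud hc ha h4 hur hx hN hC.2) hN)
    _ hn2.1 ⟨hcnd, hc2⟩ hn2.2
  exact H.p.gt M _ _ h6M hdisc hirrD f hf h2f β h hβ hh _ _ hRt hΩ hsq

end abs

/-- The theorem on the Selmer groups over all `M`. -/
theorem selR_all (H : Parts2) {κ : ℕ} (hLB : LBk κ) {a b : ℤ} {X' : ℕ}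
    {S T₀ : Finset ℤ} {s A B : ℤ → ℤ} (hS : GoodS S s)
    (hF : Fam X' S s T₀ A B a b) (h4 : (4 : ℤ) ∣ a - b) (hnb : ¬ LBad κ X' S s a b)
    (hT₀ : GoodT T₀ A B) :
    ∃ J ⊆ S, ∀ (M : Type) [Field M] [NumberField M] [IsGalois ℚ M] (n : ℕ) (T : Set ℤ),
      Module.finrank ℚ M = 2 ^ n → TGood T S a b → Spl M T S →
      (∀ w : HeightOneSpectrum (𝓞 M), Ov 2 w → w.valuation M 2 = WithZero.exp (-1 : ℤ)) →
      SelR (𝓞 M) (sW (((a * (∏ Q ∈ J, Q) ^ 2 : ℤ)) : M) (((b * (∏ Q ∈ J, Q) ^ 3 : ℤ)) : M)) := by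
  have hnt2 : ∀ z : ℤ, ¬ (2 : ℤ) ∣ z ^ 3 + a * z + b := fam_nt hT₀ hF hT₀.1
  obtain ⟨ha, hb⟩ := odd_of hnt2
  have hnrQ : ∀ t : ℚ, t ^ 3 + (a : ℚ) * t + (b : ℚ) ≠ 0 := by
    intro t ht
    apply no_root2 hnt2 (t : ℚ_[2])
    have h1 := congrArg (algebraMap ℚ ℚ_[2]) ht
    rw [map_zero, map_add, map_add, map_mul, map_pow, map_intCast, map_intCast] at h1
    exact h1
  have hirr : Irreducible (ff ℚ a b) := irr_tw' hnrQ
  obtain ⟨L, iF, iN, θ, hc, hu⟩ := exists_cub hirr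
  obtain ⟨J, hJ, hsel⟩ := core2 (L := L) (𝓞 L) H.p.cls H.p.exq H.p.ns H.p.lin H.p.recp H.p.plm
    H.p.sd H.p.ttv hLB hc hS hT₀ hF hnb
  refine ⟨J, hJ, ?_⟩
  intro M _ _ _ n T hM hT hspl hur
  obtain ⟨w₀, hw₀⟩ := exists_over (𝓞 M)
  have hnr := H.nr M (𝓞 M) n hM w₀ hw₀ a b ha hb
  have hnrM : ∀ t : M, t ^ 3 + (a : M) * t + (b : M) ≠ 0 := by
    intro t ht
    apply hnr (algebraMap M _ t)
    have h1 := congrArg (algebraMap M (w₀.adicCompletion M)) ht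
    rw [map_zero, map_add, map_add, map_mul, map_pow, map_intCast, map_intCast] at h1
    exact h1
  have hirrM : Irreducible (ff M a b) := irr_tw' hnrM
  obtain ⟨Ω, iF', iA', t, ht, hr, htop, hfin⟩ := exists_field hirrM (ff_monic M a b) (ff_deg M a b)
  haveI : CharZero Ω := charZero_of_injective_algebraMap (algebraMap M Ω).injective
  haveI : FiniteDimensional ℚ Ω := FiniteDimensional.trans ℚ M Ω
  haveI : NumberField Ω := ⟨⟩
  have ht' : t ^ 3 + (a : Ω) * t + (b : Ω) = 0 := by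
    simp only [ff, map_add, map_mul, map_pow, aeval_X, aeval_C, map_intCast] at ht
    exact ht
  obtain ⟨φ, hφ⟩ := hu Ω t ht'
  letI : Algebra L Ω := φ.toAlgebra
  have hroot : algebraMap L Ω θ = t := hφ
  have htop' : M⟮algebraMap L Ω θ⟯ = ⊤ := by rw [hroot]; exact htop
  exact selR_abs H hc hS hF h4 hJ hsel hT hspl hM hr htop' ha hb hur

end Pool.Agent.U693.UN
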