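import Pool.Agent.U693.UN.Cnd

/-!
# Conditions over the extension: the top

Adapted from `Pool.Agent.N922.PQ.Big3` (helper922), without generators of the fields.
-/

set_option autoImplicit false
set_option linter.all false

open Polynomial IsDedekindDomain NumberField
open scoped Classical IntermediateField

namespace Pool.Agent.U693.UN

open Pool.Agent.N922.PQ hiding Cnd cnd_sq cnd_mul cnd_sig base_sq odd_top ns_top cnd_top
open Pool.Agent.N874.PP (Tup chA chB gq tau Two Ev Sq1 U0)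
open Pool.Agent.N874.PM (PLoc Lies SelR ShaR S_LOC1M S_LOC2M)

section ov

variable {L Ω : Type} [Field L] [NumberField L] [Field Ω] [NumberField Ω] [Algebra L Ω]

theorem ov_below (𝔓 : HeightOneSpectrum (𝓞 Ω)) (P : ℤ) :
    Ov P (below (L := L) 𝔓) ↔ Ov P 𝔓 := by
  unfold Ov
  change algebraMap (𝓞 L) (𝓞 Ω) (P : 𝓞 L) ∈ 𝔓.asIdeal ↔ _
  rw [map_intCast]

theorem ov_belowZ (w : HeightOneSpectrum (𝓞 L)) (P : ℤ) :
    Ov P (belowZ w) ↔ Ov P w := by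
  unfold Ov
  change algebraMap ℤ (𝓞 L) ((P : ℤ) : ℤ) ∈ w.asIdeal ↔ _
  rw [eq_intCast]

end ov

/-- The conditions on the extension `M`: it is unramified at the primes outside `T`, and the primes
in `S` split completely. -/
structure Spl (M : Type) [Field M] [NumberField M] (T : Set ℤ) (S : Finset ℤ) : Prop where
  ur : ∀ (w : HeightOneSpectrum (𝓞 M)) (P : ℤ), IsPr P → Ov P w → P ∉ T →
    w.valuation M (P : M) = WithZero.exp (-1 : ℤ)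
  dg : ∀ Q ∈ S, ∀ w : HeightOneSpectrum (𝓞 M), Ov Q w →
    w.valuation M (Q : M) = WithZero.exp (-1 : ℤ) ∧ ∀ x : 𝓞 M, ∃ c : ℤ, x - (c : 𝓞 M) ∈ w.asIdeal

/-- The conditions on the set `T`, for the polynomial `X ^ 3 + a X + b`. -/
structure TGood (T : Set ℤ) (S : Finset ℤ) (a b : ℤ) : Prop where
  two : (2 : ℤ) ∈ T
  three : (3 : ℤ) ∈ T
  pr : ∀ P ∈ T, IsPr P
  nz : ∀ P ∈ T, ∀ z : ℤ, ¬ P ∣ z ^ 3 + a * z + b
  dis : ∀ Q ∈ S, Q ∉ T

section top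

variable {L M Ω : Type} [Field L] [NumberField L] [Field M] [NumberField M]
  [Field Ω] [NumberField Ω] [Algebra L Ω] [Algebra M Ω]

theorem not_T {O : Type} [CommRing O] [IsDedekindDomain O]
    [Algebra.IsIntegral ℤ O] [CharZero O] {S : Finset ℤ} {s : ℤ → ℤ} {T : Set ℤ} {a b : ℤ}
    (hS : GoodS S s) (hT : TGood T S a b) {Q : ℤ} (hQ : Q ∈ S)
    {𝔓 : HeightOneSpectrum O} (h : Ov Q 𝔓) : ∀ P ∈ T, ¬ Ov P 𝔓 := by
  intro P hP h'
  have : Q = P := below_unique (hS Q hQ).1 (hT.pr P hP) h h'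
  exact hT.dis Q hQ (this ▸ hP)

/-- The element `Q θ` has odd valuation. -/
theorem odd_top [IsGalois ℚ M] (hEXQ : S_EXQ) {a b : ℤ} {θ : L}
    (hc : IsCub a b θ) (hsq : Squarefree (dsc a b)) {m : ℕ} (hM : Module.finrank ℚ M = 2 ^ m)
    (hΩ : Module.finrank M Ω = 3) {Q : ℤ} (hQ : Prime Q) (hb : Q ∣ b)
    (hns : ∀ z : ℤ, ¬ Q ∣ z ^ 2 + a)
    (hdg : ∀ w : HeightOneSpectrum (𝓞 M), Ov Q w → w.valuation M (Q : M) = WithZero.exp (-1 : ℤ))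
    (𝔓 : HeightOneSpectrum (𝓞 Ω)) (h1 : Ov Q 𝔓)
    (h2 : 𝔓.valuation Ω (algebraMap L Ω θ) = 1) :
    ¬ Ev 𝔓 ((Q : Ω) * algebraMap L Ω θ) := by
  have hv := ur_top (L := L) (M := M) hM hc.rank hΩ 𝔓
    (hdg _ ((ov_below (L := M) 𝔓 Q).2 h1))
  obtain ⟨𝔓₁, 𝔮, h3, h4, h5, h7, h8, h9⟩ := hEXQ L (𝓞 L) a b θ hc hsq Q hQ hb hns
  have e : (Q : Ω) * algebraMap L Ω θ = algebraMap L Ω ((Q : L) * θ) := by
    rw [map_mul, map_intCast]
  rw [e, ev_down hv]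
  rcases h9 (below (L := L) 𝔓) ((ov_down hv Q).1 h1) with h10 | h10
  · rw [hv, h10] at h2
    exact absurd h2 h5.ne
  · rw [h10]
    exact h8

/-- `- a` is not a square in the residue field. -/
theorem ns_top {a : ℤ} {Q : ℤ} (hQ : Prime Q)
    (hns : ∀ z : ℤ, ¬ Q ∣ z ^ 2 + a) (w : HeightOneSpectrum (𝓞 M)) (h1 : Ov Q w)
    (hdg : w.valuation M (Q : M) = WithZero.exp (-1 : ℤ))
    (hres : ∀ x : 𝓞 M, ∃ c : ℤ, x - (c : 𝓞 M) ∈ w.asIdeal)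
    (z : M) (hz : w.valuation M z ≤ 1) :
    ¬ w.valuation M (z ^ 2 + (a : M)) < 1 := by
  intro hlt
  obtain ⟨y, hy⟩ := w.exists_valuation_sub_lt_of_integer hz 1
  rw [Units.val_one] at hy
  obtain ⟨z₁, hz₁⟩ := hres y
  have hz₁' : w.valuation M (algebraMap (𝓞 M) M y - (z₁ : M)) < 1 := by
    have e : algebraMap (𝓞 M) M y - (z₁ : M) = algebraMap (𝓞 M) M (y - (z₁ : 𝓞 M)) := by
      rw [map_sub, map_intCast]
    rw [e, HeightOneSpectrum.valuation_lt_one_iff_mem]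
    exact hz₁
  have h2 : w.valuation M (z - (z₁ : M)) < 1 := by
    have e : z - (z₁ : M) = - (algebraMap (𝓞 M) M y - z) + (algebraMap (𝓞 M) M y - (z₁ : M)) := by
      ring
    rw [e]
    refine lt_of_le_of_lt (Valuation.map_add _ _ _) (max_lt ?_ hz₁')
    rw [Valuation.map_neg]
    exact hy
  have h3 : w.valuation M (((z₁ ^ 2 + a : ℤ)) : M) < 1 := by
    have e : (((z₁ ^ 2 + a : ℤ)) : M) = (z ^ 2 + (a : M)) -
        (z - (z₁ : M)) * (z + (z₁ : M)) := by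
      push_cast
      ring
    rw [e]
    refine lt_of_le_of_lt (Valuation.map_sub _ _ _) (max_lt hlt ?_)
    rw [map_mul]
    have h4 : w.valuation M (z + (z₁ : M)) ≤ 1 :=
      (Valuation.map_add _ _ _).trans (max_le hz (val_le z₁ w))
    exact lt_of_le_of_lt (mul_le_mul' le_rfl h4) (by rwa [mul_one])
  have h5 : Ov (z₁ ^ 2 + a) w := (ov_val (L := M) _ w).2 h3
  -- hence `Q` divides it
  apply hns z₁
  by_contra hnd
  exact one_mem_of ((hQ.irreducible.coprime_iff_not_dvd).2 hnd) h1 h5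

theorem cnd_top [IsGalois ℚ M] (hEXQ : S_EXQ) (hLIE : S_LIE) (hLOC1M : S_LOC1M)
    (hLOC2M : S_LOC2M) {a b : ℤ} {θ : L} {X' : ℕ} {S J T₀ : Finset ℤ} {T : Set ℤ}
    {s A B : ℤ → ℤ} (hc : IsCub a b θ) (hS : GoodS S s)
    (hF : Fam X' S s T₀ A B a b) {m : ℕ} (hM : Module.finrank ℚ M = 2 ^ m)
    (hΩ : Module.finrank M Ω = 3) (hT : TGood T S a b) (hspl : Spl M T S)
    (hJ : J ⊆ S) {h : M[X]}
    (hloc : ∀ w : HeightOneSpectrum (𝓞 M), ¬ Ov 2 w → PLoc (w.adicCompletion M)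
      (((a * (∏ Q ∈ J, Q) ^ 2 : ℤ)) : M) (((b * (∏ Q ∈ J, Q) ^ 3 : ℤ)) : M) h)
    (h0 : aeval (((∏ Q ∈ J, Q : ℤ) : Ω) * algebraMap L Ω θ) h ≠ 0) :
    Cnd (𝓞 Ω) J T (algebraMap L Ω θ) (aeval (((∏ Q ∈ J, Q : ℤ) : Ω) * algebraMap L Ω θ) h)
    := by
  have hroot : (algebraMap L Ω θ) ^ 3 + algebraMap M Ω (a : M) * algebraMap L Ω θ +
      algebraMap M Ω (b : M) = 0 := by
    have h1 := congrArg (algebraMap L Ω) hc.root
    rw [map_zero, map_add, map_add, map_mul, map_pow, map_intCast, map_intCast] at h1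
    rw [map_intCast, map_intCast]
    exact h1
  -- at the primes in `J`
  have key : ∀ Q ∈ J, ∀ 𝔓 : HeightOneSpectrum (𝓞 Ω), Ov Q 𝔓 →
      (𝔓.valuation Ω (algebraMap L Ω θ) = 1 → U0 𝔓 ((Q : Ω) * algebraMap L Ω θ)
        (aeval (((∏ Q ∈ J, Q : ℤ) : Ω) * algebraMap L Ω θ) h)) ∧
      (𝔓.valuation Ω (algebraMap L Ω θ) < 1 →
        Ev 𝔓 (aeval (((∏ Q ∈ J, Q : ℤ) : Ω) * algebraMap L Ω θ) h)) := by
    intro Q hQ 𝔓 h𝔓
    have hQS := hJ hQ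
    obtain ⟨w, hw, hO⟩ := hLIE M Ω (𝓞 M) (𝓞 Ω) 𝔓
    have hQw : Ov Q w := (hO Q).2 h𝔓
    have hnT := not_T (O := 𝓞 M) hS hT hQS hQw
    have h2w : ¬ Ov 2 w := hnT 2 hT.two
    have h3w : ¬ Ov 3 w := hnT 3 hT.three
    obtain ⟨hϖ, hres⟩ := hspl.dg Q hQS w hQw
    haveI : Finite (𝓞 M ⧸ w.asIdeal) := fin_quot w
    have hprod : (∏ P ∈ J, P) = Q * ∏ P ∈ J.erase Q, P := (Finset.mul_prod_erase J id hQ).symm
    have hD' : w.valuation M (((∏ P ∈ J.erase Q, P : ℤ)) : M) = 1 := by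
      refine val_eq_of _ w fun h => ?_
      obtain ⟨P, hP, hP'⟩ := ov_prod h
      have hPS := hJ (Finset.mem_of_mem_erase hP)
      exact Finset.ne_of_mem_erase hP (below_unique (hS P hPS).1 (hS Q hQS).1 hP' hQw)
    have hb1 : w.valuation M (b : M) < 1 := by
      rw [← ov_val]
      obtain ⟨c, hc⟩ := hF.rb Q hQS
      unfold Ov at hQw ⊢
      rw [hc, Int.cast_mul]
      exact Ideal.mul_mem_right _ _ hQw
    have hns := fun z hz => ns_top (a := a) (hS Q hQS).1.2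
      (fam_ns hS hF hQS) w hQw hϖ hres z hz
    have e1 : (((a * (∏ Q ∈ J, Q) ^ 2 : ℤ)) : M) = (a : M) *
        ((Q : M) * (((∏ P ∈ J.erase Q, P : ℤ)) : M)) ^ 2 := by
      rw [hprod]
      simp only [Int.cast_mul, Int.cast_pow]
    have e2 : (((b * (∏ Q ∈ J, Q) ^ 3 : ℤ)) : M) = (b : M) *
        ((Q : M) * (((∏ P ∈ J.erase Q, P : ℤ)) : M)) ^ 3 := by
      rw [hprod]
      simp only [Int.cast_mul, Int.cast_pow]
    have e3 : algebraMap M Ω ((Q : M) * (((∏ P ∈ J.erase Q, P : ℤ)) : M)) =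
        (((∏ P ∈ J, P : ℤ)) : Ω) := by
      rw [hprod, map_mul, map_intCast, map_intCast, Int.cast_mul]
    have hl := hloc w h2w
    rw [e1, e2] at hl
    have h2 := hLOC2M M Ω (𝓞 M) (𝓞 Ω) w 𝔓 hw (a : M) (b : M)
      (Q : M) (((∏ P ∈ J.erase Q, P : ℤ)) : M) (algebraMap L Ω θ) h hroot
      (val_six h2w h3w) (val_le a w) hb1 hϖ hD' hns hl (by rw [e3]; exact h0)
    rw [e3, map_intCast (algebraMap M Ω)] at h2
    refine ⟨fun h3 => h2.1 h3 ?_, h2.2⟩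
    exact odd_top (M := M) hEXQ hc hF.sq hM hΩ (hS Q hQS).1.2 (hF.rb Q hQS) (fam_ns hS hF hQS)
      (fun w hw => (hspl.dg Q hQS w hw).1) 𝔓 h𝔓 h3
  refine ⟨fun 𝔓 h1 h2 => ?_, fun Q hQ 𝔓 h1 h2 => (key Q hQ 𝔓 h1).1 h2,
    fun Q hQ 𝔓 h1 h2 => (key Q hQ 𝔓 h1).2 h2⟩
  obtain ⟨w, hw, hO⟩ := hLIE M Ω (𝓞 M) (𝓞 Ω) 𝔓
  have hnT : ∀ P ∈ T, ¬ Ov P w := fun P hP h => h1 P hP ((hO P).1 h)
  obtain ⟨P, hP1, hP2⟩ := exists_below w
  have hPT : P ∉ T := fun hP => hnT P hP hP2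
  have hv := urQ w (hspl.ur w P hP1 hP2 hPT)
  have hD : w.valuation M (((∏ Q ∈ J, Q : ℤ)) : M) = 1 := by
    refine val_eq_of _ w fun h => ?_
    obtain ⟨Q, hQ, h'⟩ := ov_prod h
    exact h2 Q hQ ((hO Q).1 h')
  have hdisc : WithZero.exp (-1 : ℤ) ≤ w.valuation M (4 * (a : M) ^ 3 +
      27 * (b : M) ^ 2) := by
    have e : 4 * (a : M) ^ 3 + 27 * (b : M) ^ 2 =
        algebraMap ℚ M ((dsc a b : ℤ) : ℚ) := by
      rw [map_intCast]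
      simp [dsc]
    rw [e, hv]
    exact val_sqfree hF.sq _
  have e3 : algebraMap M Ω (((∏ P ∈ J, P : ℤ)) : M) = (((∏ P ∈ J, P : ℤ)) : Ω) :=
    map_intCast _ _
  have hl := hloc w (hnT 2 hT.two)
  have hl' : PLoc (w.adicCompletion M) ((a : M) * (((∏ Q ∈ J, Q : ℤ)) : M) ^ 2)
      ((b : M) * (((∏ Q ∈ J, Q : ℤ)) : M) ^ 3) h := by
    have e1 : (((a * (∏ Q ∈ J, Q) ^ 2 : ℤ)) : M) = (a : M) * (((∏ Q ∈ J, Q : ℤ)) : M) ^ 2 := by
      simp only [Int.cast_mul, Int.cast_pow]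
    have e2 : (((b * (∏ Q ∈ J, Q) ^ 3 : ℤ)) : M) = (b : M) * (((∏ Q ∈ J, Q : ℤ)) : M) ^ 3 := by
      simp only [Int.cast_mul, Int.cast_pow]
    rw [← e1, ← e2]
    exact hl
  have h3 := hLOC1M M Ω (𝓞 M) (𝓞 Ω) w 𝔓 hw (a : M) (b : M)
    (((∏ P ∈ J, P : ℤ)) : M) (algebraMap L Ω θ) h hroot
    (val_six (hnT 2 hT.two) (hnT 3 hT.three)) (val_le a w) (val_le b w) hD hdisc hl'
    (by rw [e3]; exact h0)
  rw [e3] at h3
  exact h3

end top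

end Pool.Agent.U693.UN
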