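import Pool.Agent.U693.UN.Iner
import Pool.Agent.N922.PQ.Big3
import Pool.Agent.N692.PM.Tow

/-!
# Unramified primes and completely split primes in a compositum

The compositum `Ω` of a Galois extension `M` of `ℚ` and a number field `L`: the primes over an
unramified prime number `P` of `M` are unramified over `L`, and `L` is dense at the primes over `Q`, if
`Q` splits completely in `M`.
-/

set_option autoImplicit false
set_option linter.all false

open Polynomial IsDedekindDomain NumberField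
open scoped Classical IntermediateField Pointwise

namespace Pool.Agent.U693.UN

open Pool.Agent.N922.PQ
open Pool.Agent.N692.PMTOW (im mem_im sup_top adj_top normal_of_top)

section ur

variable {L M Ω : Type} [Field L] [NumberField L] [Field M] [NumberField M] [Field Ω]
  [NumberField Ω] [Algebra L Ω] [Algebra M Ω] [IsGalois ℚ M]

/-- The compositum is Galois over `L`. -/
theorem gal_top {m : ℕ} (hM : Module.finrank ℚ M = 2 ^ m) (hL : Module.finrank ℚ L = 3)
    (hΩ : Module.finrank M Ω = 3) : IsGalois L Ω := by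
  have h1 : im ℚ M Ω ⊔ im ℚ L Ω = ⊤ := sup_top hM hL hΩ
  haveI : FiniteDimensional L Ω := Module.Finite.of_restrictScalars_finite ℚ L Ω
  haveI : Normal L Ω := normal_of_top (K := ℚ) (M := M) h1
  exact {}

/-- Primes over an unramified prime number are unramified over `L`. -/
theorem ur_top {m : ℕ} (hM : Module.finrank ℚ M = 2 ^ m) (hL : Module.finrank ℚ L = 3)
    (hΩ : Module.finrank M Ω = 3) (𝔓 : HeightOneSpectrum (𝓞 Ω)) {P : ℤ}
    (hun : (below (L := M) 𝔓).valuation M (P : M) = WithZero.exp (-1 : ℤ)) (x : L) :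
    𝔓.valuation Ω (algebraMap L Ω x) = (below (L := L) 𝔓).valuation L x := by
  haveI := gal_top (M := M) (Ω := Ω) hM hL hΩ
  refine val_of_inertia 𝔓 (fun σ hσ => ?_) x
  have htop : im ℚ M Ω ⊔ im ℚ L Ω = ⊤ := sup_top hM hL hΩ
  set τ : M ≃ₐ[ℚ] M := (σ.restrictScalars ℚ).restrictNormal M with hτ
  have hτc : ∀ y : M, algebraMap M Ω (τ y) = σ (algebraMap M Ω y) := fun y =>
    AlgEquiv.restrictNormal_commutes (σ.restrictScalars ℚ) M y
  have h1 : τ = 1 := by
    refine inertia_of_val (below (L := M) 𝔓) hun τ fun y => ?_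
    have h2 : algebraMap (𝓞 M) (𝓞 Ω) (τ • y - y) = σ • (algebraMap (𝓞 M) (𝓞 Ω) y) -
        algebraMap (𝓞 M) (𝓞 Ω) y := by
      rw [map_sub]
      congr 1
      apply RingOfIntegers.ext
      exact hτc y
    change algebraMap (𝓞 M) (𝓞 Ω) (τ • y - y) ∈ 𝔓.asIdeal
    rw [h2]
    exact hσ _
  have hfix : ∀ y : M, σ (algebraMap M Ω y) = algebraMap M Ω y := fun y => by
    rw [← hτc, h1]
    rfl
  ext z
  have hz := adj_top (K := ℚ) (L := L) (M := M) htop z
  change σ z = z
  induction hz using IntermediateField.adjoin_induction with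
  | mem z hz =>
    obtain ⟨y, rfl⟩ := hz
    exact hfix y
  | algebraMap y => exact σ.commutes y
  | add y z _ _ h h' => rw [map_add, h, h']
  | inv y _ h => rw [map_inv₀, h]
  | mul y z _ _ h h' => rw [map_mul, h, h']

end ur

section urQ

variable {M : Type} [Field M] [NumberField M]

/-- At an unramified prime the valuation restricts to the valuation of `ℚ`. -/
theorem urQ (w : HeightOneSpectrum (𝓞 M)) {P : ℤ}
    (hw : w.valuation M (P : M) = WithZero.exp (-1 : ℤ)) (x : ℚ) :
    w.valuation M (algebraMap ℚ M x) = (belowZ w).valuation ℚ x := by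
  have hl : w.asIdeal.LiesOver (belowZ w).asIdeal := belowZ_lies w
  have h2 := HeightOneSpectrum.valuation_liesOver M (belowZ w) w (P : ℚ)
  rw [map_intCast (algebraMap ℚ M), hw] at h2
  have h3 := HeightOneSpectrum.valuation_liesOver M (belowZ w) w x
  rw [exp_pow h2, pow_one] at h3
  exact h3.symm

end urQ

/-! ### Density -/

section dens

variable {M : Type} [Field M] [NumberField M]

/-- Complete splitting: approximation by elements of `ℚ`, first step. -/
theorem dens1 {Q : ℤ} (w : HeightOneSpectrum (𝓞 M))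
    (h1 : w.valuation M (Q : M) = WithZero.exp (-1 : ℤ))
    (h2 : ∀ x : 𝓞 M, ∃ c : ℤ, x - (c : 𝓞 M) ∈ w.asIdeal) (s : M)
    (hs : s ≠ 0) : ∃ s₀ : ℚ, w.valuation M (s - algebraMap ℚ M s₀) < w.valuation M s := by
  have hQ0 : (Q : M) ≠ 0 := by
    intro h0
    rw [h0, map_zero] at h1
    exact WithZero.exp_ne_zero h1.symm
  obtain ⟨m, hm⟩ : ∃ m : ℤ, w.valuation M s = WithZero.exp m :=
    ⟨WithZero.log _, (WithZero.exp_log ((Valuation.ne_zero_iff _).2 hs)).symm⟩
  -- scaling
  set u : M := s * (Q : M) ^ m with hu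
  have hwu : w.valuation M u = 1 := by
    rw [hu, map_mul, map_zpow₀, h1, hm, ← WithZero.exp_zsmul, ← WithZero.exp_add]
    simp
  obtain ⟨a, ha⟩ := w.exists_valuation_sub_lt_of_integer hwu.le 1
  rw [Units.val_one] at ha
  obtain ⟨c, hc⟩ := h2 a
  have hca : w.valuation M ((c : M) - algebraMap (𝓞 M) M a) < 1 := by
    have e : (c : M) - algebraMap (𝓞 M) M a = algebraMap (𝓞 M) M (-(a - (c : 𝓞 M))) := by
      rw [map_neg, map_sub, map_intCast]
      ring
    rw [e, HeightOneSpectrum.valuation_lt_one_iff_mem]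
    exact neg_mem hc
  have huc : w.valuation M (u - (c : M)) < 1 := by
    have e : u - (c : M) = - ((algebraMap (𝓞 M) M a - u) + ((c : M) - algebraMap (𝓞 M) M a)) := by
      ring
    rw [e, Valuation.map_neg]
    exact (Valuation.map_add _ _ _).trans_lt (max_lt ha hca)
  have hQm : (Q : M) ^ m ≠ 0 := zpow_ne_zero _ hQ0
  refine ⟨(c : ℚ) * ((Q : ℚ) ^ m)⁻¹, ?_⟩
  have e1 : s - algebraMap ℚ M ((c : ℚ) * ((Q : ℚ) ^ m)⁻¹) = (u - (c : M)) * ((Q : M) ^ m)⁻¹ := by
    rw [map_mul, map_inv₀, map_zpow₀, map_intCast, map_intCast, hu, sub_mul, mul_assoc,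
      mul_inv_cancel₀ hQm, mul_one]
  have e2 : s = u * ((Q : M) ^ m)⁻¹ := by
    rw [hu, mul_assoc, mul_inv_cancel₀ hQm, mul_one]
  rw [e1]
  conv_rhs => rw [e2]
  rw [map_mul, map_mul, hwu]
  refine (mul_lt_mul_iff_left₀ ?_).2 huc
  rw [zero_lt_iff]
  exact (Valuation.ne_zero_iff _).2 (inv_ne_zero hQm)

/-- Approximation by elements of `ℚ`. -/
theorem dens2 (w : HeightOneSpectrum (𝓞 M))
    (h : ∀ s : M, s ≠ 0 → ∃ s₀ : ℚ, w.valuation M (s - algebraMap ℚ M s₀) < w.valuation M s)
    (s : M) {ε : WithZero (Multiplicative ℤ)} (hε : ε ≠ 0) :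
    ∃ s₀ : ℚ, w.valuation M (s - algebraMap ℚ M s₀) < ε := by
  obtain ⟨b, rfl⟩ : ∃ b : ℤ, ε = WithZero.exp b := ⟨WithZero.log ε, (WithZero.exp_log hε).symm⟩
  have key : ∀ (n : ℕ) (s : M), w.valuation M s < WithZero.exp (b + n) →
      ∃ s₀ : ℚ, w.valuation M (s - algebraMap ℚ M s₀) < WithZero.exp b := by
    intro n
    induction n with
    | zero =>
      intro s hs
      refine ⟨0, ?_⟩
      rw [map_zero, sub_zero]
      simpa using hs
    | succ n ih =>
      intro s hs
      by_cases h0 : s = 0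
      · refine ⟨0, ?_⟩
        rw [h0, map_zero, sub_zero, map_zero]
        exact WithZero.exp_pos
      · obtain ⟨s₁, hs₁⟩ := h s h0
        have h3 : w.valuation M (s - algebraMap ℚ M s₁) < WithZero.exp (b + n) := by
          by_cases h4 : s - algebraMap ℚ M s₁ = 0
          · rw [h4, map_zero]
            exact WithZero.exp_pos
          · have a1 : w.valuation M (s - algebraMap ℚ M s₁) ≠ 0 := (Valuation.ne_zero_iff _).2 h4
            have a2 : w.valuation M s ≠ 0 := (Valuation.ne_zero_iff _).2 h0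
            rw [← WithZero.exp_log a1, ← WithZero.exp_log a2, WithZero.exp_lt_exp] at hs₁
            rw [← WithZero.exp_log a2, WithZero.exp_lt_exp] at hs
            rw [← WithZero.exp_log a1, WithZero.exp_lt_exp]
            push_cast at hs
            omega
        obtain ⟨s₂, hs₂⟩ := ih _ h3
        refine ⟨s₁ + s₂, ?_⟩
        rw [map_add, ← sub_sub]
        exact hs₂
  by_cases h0 : s = 0
  · refine ⟨0, ?_⟩
    rw [h0, map_zero, sub_zero, map_zero]
    exact WithZero.exp_pos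
  · have a2 : w.valuation M s ≠ 0 := (Valuation.ne_zero_iff _).2 h0
    refine key (WithZero.log (w.valuation M s) - b + 1).toNat s ?_
    conv_lhs => rw [← WithZero.exp_log a2]
    rw [WithZero.exp_lt_exp]
    have := Int.self_le_toNat (WithZero.log (w.valuation M s) - b + 1)
    omega

end dens

section dens3

variable {L M Ω : Type} [Field L] [NumberField L] [Field M] [NumberField M] [Field Ω]
  [NumberField Ω] [Algebra L Ω] [Algebra M Ω]

theorem pow_lt_of {a ε : WithZero (Multiplicative ℤ)} {e : ℕ} (he : e ≠ 0) (h1 : a < ε)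
    (h2 : ε ≤ 1) : a ^ e < ε := by
  have ha : a ≤ 1 := h1.le.trans h2
  obtain ⟨e', rfl⟩ := Nat.exists_eq_succ_of_ne_zero he
  rw [pow_succ]
  exact lt_of_le_of_lt (mul_le_of_le_one_left' (pow_le_one' ha e')) h1

/-- Approximation by elements of `L`. -/
theorem dens3 {θ : L} (hθ : M⟮algebraMap L Ω θ⟯ = ⊤)
    (𝔓 : HeightOneSpectrum (𝓞 Ω)) (hint : 𝔓.valuation Ω (algebraMap L Ω θ) ≤ 1)
    (h : ∀ s : M, s ≠ 0 → ∃ s₀ : ℚ, (below (L := M) 𝔓).valuation M (s - algebraMap ℚ M s₀) <
      (below (L := M) 𝔓).valuation M s) (s : Ω) (hs : s ≠ 0) :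
    ∃ s₀ : L, 𝔓.valuation Ω (s - algebraMap L Ω s₀) < 𝔓.valuation Ω s := by
  haveI : FiniteDimensional M Ω := Module.Finite.of_restrictScalars_finite ℚ M Ω
  have hl : 𝔓.asIdeal.LiesOver (below (L := M) 𝔓).asIdeal := below_lies 𝔓
  obtain ⟨e, he⟩ : ∃ e : ℕ, e = (below (L := M) 𝔓).asIdeal.ramificationIdx' 𝔓.asIdeal := ⟨_, rfl⟩
  have hw : ∀ x : M, 𝔓.valuation Ω (algebraMap M Ω x) = (below (L := M) 𝔓).valuation M x ^ e :=
    fun x => by rw [he]; exact (HeightOneSpectrum.valuation_liesOver Ω (below (L := M) 𝔓) 𝔓 x).symm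
  have he0 : e ≠ 0 := by
    rw [he]
    exact Ideal.IsDedekindDomain.ramificationIdx'_ne_zero_of_liesOver 𝔓.asIdeal
      (below (L := M) 𝔓).ne_bot
  have hε : 𝔓.valuation Ω s ≠ 0 := (Valuation.ne_zero_iff _).2 hs
  obtain ⟨ε, hε0, hε1, hε2⟩ : ∃ ε : WithZero (Multiplicative ℤ), ε ≠ 0 ∧ ε ≤ 1 ∧
      ε ≤ 𝔓.valuation Ω s := by
    rcases le_total (𝔓.valuation Ω s) 1 with h1 | h1
    · exact ⟨_, hε, h1, le_rfl⟩
    · exact ⟨1, one_ne_zero, le_rfl, h1⟩
  have h1 : s ∈ Algebra.adjoin M {algebraMap L Ω θ} := by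
    have h2 := IntermediateField.adjoin_simple_toSubalgebra_of_isAlgebraic
      (Algebra.IsAlgebraic.isAlgebraic (R := M) (algebraMap L Ω θ))
    rw [← h2, hθ]
    trivial
  rw [Algebra.adjoin_singleton_eq_range_aeval] at h1
  obtain ⟨p, hp⟩ := h1
  change aeval (algebraMap L Ω θ) p = s at hp
  choose a ha using fun i => dens2 (below (L := M) 𝔓) h (p.coeff i) hε0
  refine ⟨∑ i ∈ Finset.range (p.natDegree + 1), algebraMap ℚ L (a i) * θ ^ i, ?_⟩
  have e : s - algebraMap L Ω
      (∑ i ∈ Finset.range (p.natDegree + 1), algebraMap ℚ L (a i) * θ ^ i) =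
      ∑ i ∈ Finset.range (p.natDegree + 1), algebraMap M Ω (p.coeff i - algebraMap ℚ M (a i)) *
        (algebraMap L Ω θ) ^ i := by
    conv_lhs => rw [← hp, aeval_eq_sum_range]
    rw [map_sum, ← Finset.sum_sub_distrib]
    refine Finset.sum_congr rfl fun i _ => ?_
    rw [map_mul, map_pow, ← IsScalarTower.algebraMap_apply ℚ L Ω, map_sub,
      ← IsScalarTower.algebraMap_apply ℚ M Ω, sub_mul, Algebra.smul_def]
  rw [e]
  refine Valuation.map_sum_lt _ hε fun i _ => ?_
  rw [map_mul, hw, map_pow]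
  refine lt_of_le_of_lt ?_ ((pow_lt_of he0 (ha i) hε1).trans_le hε2)
  exact mul_le_of_le_one_right' (pow_le_one' hint i)

end dens3

end Pool.Agent.U693.UN
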